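import Mathlib

/-!
# Countably compact Hausdorff spaces that are not Stäckel-compact

For a regular uncountable cardinal `κ`, the space of ordinals `< κ` of countable cofinality.
-/

open Set Cardinal Order

universe u

namespace Pool.Agent.Results.MP_fafcbd_gt.Friedman

/-- Every countable open cover has a finite subcover. -/
def CountablyCompact (X : Type u) [TopologicalSpace X] : Prop :=
  ∀ U : ℕ → Set X, (∀ n, IsOpen (U n)) → (⋃ n, U n) = Set.univ →
    ∃ t : Finset ℕ, (⋃ n ∈ t, U n) = Set.univ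

/-- Every nonempty subset has a point which is isolated in that subset. -/
def Scattered (X : Type u) [TopologicalSpace X] : Prop :=
  ∀ F : Set X, F.Nonempty → ∃ x ∈ F, ∃ U : Set X, IsOpen U ∧ F ∩ U = {x}

/-- Some linear order on `X` gives every nonempty closed set a least and a greatest element. -/
def Staeckel (X : Type u) [TopologicalSpace X] : Prop :=
  ∃ r : LinearOrder X, ∀ F : Set X, IsClosed F → F.Nonempty →
    (∃ m ∈ F, ∀ x ∈ F, r.le m x) ∧ (∃ M ∈ F, ∀ x ∈ F, r.le x M)

/-- The set of limit points of `A`. -/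
def limPts {X : Type u} [TopologicalSpace X] (A : Set X) : Set X :=
  {x | ∀ U : Set X, IsOpen U → x ∈ U → ∃ y ∈ A, y ∈ U ∧ y ≠ x}

/-- The Cantor-Bendixson derivatives `X^(α)`. -/
noncomputable def derivedSet (X : Type u) [TopologicalSpace X] (α : Ordinal.{u}) : Set X :=
  Ordinal.limitRecOn α Set.univ (fun _ A => limPts A) (fun o _ ih => ⋂ (β : Ordinal.{u}) (h : β < o), ih β h)

theorem derivedSet_zero (X : Type u) [TopologicalSpace X] : derivedSet X 0 = Set.univ :=
  Ordinal.limitRecOn_zero _ _ _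

theorem derivedSet_add_one (X : Type u) [TopologicalSpace X] (α : Ordinal.{u}) :
    derivedSet X (α + 1) = limPts (derivedSet X α) :=
  Ordinal.limitRecOn_add_one _ _ _ _

theorem derivedSet_limit (X : Type u) [TopologicalSpace X] (α : Ordinal.{u}) (h : IsSuccLimit α) :
    derivedSet X α = ⋂ (β : Ordinal.{u}) (_ : β < α), derivedSet X β :=
  Ordinal.limitRecOn_limit _ _ _ _ h

/-- `ρ` is the Cantor-Bendixson rank of `X`: the least `ρ` with `X^(ρ+1) = X^(ρ)`. -/
def HasRank (X : Type u) [TopologicalSpace X] (ρ : Ordinal.{u}) : Prop :=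
  IsLeast {α : Ordinal.{u} | derivedSet X (α + 1) = derivedSet X α} ρ

section General

variable {W : Type u} [LinearOrder W]

/-- `a` is the supremum of a strictly increasing sequence of type `ω`. -/
def CofOmega (a : W) : Prop := ∃ s : ℕ → W, StrictMono s ∧ IsLUB (range s) a

/-- `a` has countable cofinality (this includes the least element and successors). -/
def CtblCof (a : W) : Prop :=
  ∃ s : Set W, s.Countable ∧ (∀ c ∈ s, c < a) ∧ ∀ b < a, ∃ c ∈ s, b ≤ c

/-- `f` is a closed copy of `ω₁`: strictly increasing and continuous. `S` contains no such copy. -/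
def NoCopy (S : Set W) : Prop :=
  ¬ ∃ f : (Ordinal.omega.{u} 1).ToType → W, Order.IsNormal f ∧ ∀ i, f i ∈ S

variable (W) in
/-- The points of countable cofinality. -/
structure Pts where
  /-- the underlying element -/
  val : W
  /-- its cofinality is countable -/
  prop : CtblCof val

theorem Pts.ext' {x y : Pts W} (h : x.val = y.val) : x = y := by
  cases x; cases y; cases h; rfl

/-- Order topology (restricted to the points of countable cofinality): `U` is open if each
`a ∈ U` other than the least element has `b < a` with all points of `(b, a]` in `U`. -/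
instance : TopologicalSpace (Pts W) where
  IsOpen U := ∀ a ∈ U, (∀ b : W, ¬ b < a.val) ∨
    ∃ b : W, b < a.val ∧ ∀ c : Pts W, b < c.val → c.val ≤ a.val → c ∈ U
  isOpen_univ := by
    intro a _
    by_cases h : ∀ b : W, ¬ b < a.val
    · exact Or.inl h
    · push Not at h
      obtain ⟨b, hb⟩ := h
      exact Or.inr ⟨b, hb, fun _ _ _ => mem_univ _⟩
  isOpen_inter := by
    intro U V hU hV a ha
    rcases hU a ha.1 with h | ⟨b, hb, hbU⟩
    · exact Or.inl h
    rcases hV a ha.2 with h | ⟨c, hc, hcV⟩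
    · exact Or.inl h
    refine Or.inr ⟨max b c, max_lt hb hc, fun d hd hda => ⟨?_, ?_⟩⟩
    · exact hbU d (lt_of_le_of_lt (le_max_left _ _) hd) hda
    · exact hcV d (lt_of_le_of_lt (le_max_right _ _) hd) hda
  isOpen_sUnion := by
    intro 𝒰 h𝒰 a ha
    obtain ⟨U, hU, haU⟩ := ha
    rcases h𝒰 U hU a haU with h | ⟨b, hb, hbU⟩
    · exact Or.inl h
    · exact Or.inr ⟨b, hb, fun c hc hca => ⟨U, hU, hbU c hc hca⟩⟩

theorem isOpen_iff (U : Set (Pts W)) : IsOpen U ↔ ∀ a ∈ U, (∀ b : W, ¬ b < a.val) ∨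
    ∃ b : W, b < a.val ∧ ∀ c : Pts W, b < c.val → c.val ≤ a.val → c ∈ U := Iff.rfl

/-- A closed set contains every limit of its elements. -/
theorem mem_of_closed {F : Set (Pts W)} (hF : IsClosed F) (a : Pts W) (h0 : ∃ b : W, b < a.val)
    (h : ∀ b : W, b < a.val → ∃ c ∈ F, b < c.val ∧ c.val ≤ a.val) : a ∈ F := by
  by_contra ha
  have := (isOpen_iff _).1 hF.isOpen_compl a ha
  rcases this with h' | ⟨b, hb, hbU⟩
  · obtain ⟨b, hb⟩ := h0
    exact h' b hb
  · obtain ⟨c, hcF, hbc, hca⟩ := h b hb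
    exact hbU c hbc hca hcF

theorem closed_of {F : Set (Pts W)} (h : ∀ a : Pts W, a ∉ F → (∀ b : W, ¬ b < a.val) ∨
    ∃ b : W, b < a.val ∧ ∀ c : Pts W, b < c.val → c.val ≤ a.val → c ∉ F) : IsClosed F := by
  rw [← isOpen_compl_iff, isOpen_iff]
  intro a ha
  exact h a ha

theorem isOpen_le (w : W) : IsOpen {x : Pts W | x.val ≤ w} := by
  rw [isOpen_iff]
  intro a ha
  by_cases h : ∀ b : W, ¬ b < a.val
  · exact Or.inl h
  · push Not at h
    obtain ⟨b, hb⟩ := h
    exact Or.inr ⟨b, hb, fun c _ hca => hca.trans ha⟩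

theorem isOpen_gt (w : W) : IsOpen {x : Pts W | w < x.val} := by
  rw [isOpen_iff]
  intro a ha
  exact Or.inr ⟨w, ha, fun c hc _ => hc⟩

instance : T2Space (Pts W) := by
  refine ⟨fun x y hxy => ?_⟩
  have hne : x.val ≠ y.val := fun h => hxy (Pts.ext' h)
  rcases lt_or_gt_of_ne hne with h | h
  · exact ⟨_, _, isOpen_le x.val, isOpen_gt x.val, le_refl x.val, h,
      Set.disjoint_left.2 fun z hz hz' => absurd hz' (not_lt.2 hz)⟩
  · exact ⟨_, _, isOpen_gt y.val, isOpen_le y.val, h, le_refl y.val,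
      Set.disjoint_left.2 fun z hz hz' => absurd hz (not_lt.2 hz')⟩

theorem CofOmega.ctblCof {a : W} (h : CofOmega a) : CtblCof a := by
  obtain ⟨s, hs, hsa⟩ := h
  refine ⟨range s, countable_range s, ?_, ?_⟩
  · rintro _ ⟨n, rfl⟩
    exact lt_of_lt_of_le (hs (Nat.lt_succ_self n)) (hsa.1 ⟨n + 1, rfl⟩)
  · intro b hb
    by_contra hcon
    push Not at hcon
    have : a ≤ b := hsa.2 (by rintro _ ⟨n, rfl⟩; exact (hcon (s n) ⟨n, rfl⟩).le)
    exact absurd hb (not_lt.2 this)

variable [WellFoundedLT W]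

theorem scattered : Scattered (Pts W) := by
  intro F hF
  have hne : (Pts.val '' F).Nonempty := hF.image _
  obtain ⟨m, hm, hmin⟩ := WellFounded.has_min (wellFounded_lt : WellFounded ((· < ·) : W → W → Prop)) _ hne
  obtain ⟨x, hx, rfl⟩ := hm
  refine ⟨x, hx, _, isOpen_le x.val, ?_⟩
  ext y
  constructor
  · rintro ⟨hy, hyx⟩
    have : ¬ y.val < x.val := hmin _ ⟨y, hy, rfl⟩
    exact Pts.ext' (le_antisymm hyx (not_lt.1 this))
  · rintro rfl
    exact ⟨hx, le_refl _⟩

/-- Every neighbourhood of a point contains a clopen neighbourhood. -/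
def ZeroDimensional (X : Type u) [TopologicalSpace X] : Prop :=
  ∀ x : X, ∀ U : Set X, IsOpen U → x ∈ U → ∃ V : Set X, IsClopen V ∧ x ∈ V ∧ V ⊆ U

omit [WellFoundedLT W] in
theorem zeroDimensional : ZeroDimensional (Pts W) := by
  intro x U hU hx
  have hle : ∀ w : W, IsClosed {z : Pts W | w < z.val} := by
    intro w
    rw [← isOpen_compl_iff]
    have : {z : Pts W | w < z.val}ᶜ = {z : Pts W | z.val ≤ w} := by
      ext z
      simp
    rw [this]
    exact isOpen_le w
  have hgt : ∀ w : W, IsClosed {z : Pts W | z.val ≤ w} := by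
    intro w
    rw [← isOpen_compl_iff]
    have : {z : Pts W | z.val ≤ w}ᶜ = {z : Pts W | w < z.val} := by
      ext z
      simp
    rw [this]
    exact isOpen_gt w
  rcases (isOpen_iff U).1 hU x hx with h | ⟨b, hb, hbU⟩
  · refine ⟨{z | z.val ≤ x.val}, ⟨hgt _, isOpen_le _⟩, le_refl x.val, ?_⟩
    intro z hz
    have : z.val = x.val := le_antisymm hz (not_lt.1 (h _))
    rw [Pts.ext' this]
    exact hx
  · refine ⟨{z | b < z.val} ∩ {z | z.val ≤ x.val}, ⟨(hle b).inter (hgt _), (isOpen_gt b).inter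
      (isOpen_le _)⟩, ⟨hb, le_refl x.val⟩, ?_⟩
    rintro z ⟨hz1, hz2⟩
    exact hbU z hz1 hz2

/-- Least upper bounds exist for sets bounded above. -/
theorem exists_lub {A : Set W} (hA : BddAbove A) : ∃ a, IsLUB A a := by
  obtain ⟨m, hm, hmin⟩ := WellFounded.has_min
    (wellFounded_lt : WellFounded ((· < ·) : W → W → Prop)) _ hA
  exact ⟨m, hm, fun b hb => not_lt.1 (hmin b hb)⟩


section Regular

variable (hreg : ∀ a : W, #(Iio a) < Order.cof W) (hunc : ℵ₀ < Order.cof W)

/-- closed and unbounded sets of points -/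
def CU (F : Set (Pts W)) : Prop := IsClosed F ∧ ∀ w : W, ∃ x ∈ F, w < x.val

omit [WellFoundedLT W] in
theorem exists_gt_of_small {A : Set W} (hA : #A < Order.cof W) : ∃ b, ∀ a ∈ A, a < b := by
  have h : ¬ IsCofinal A := fun h => absurd (Order.cof_le h) (not_le.2 hA)
  rw [not_isCofinal_iff] at h
  obtain ⟨x, hx⟩ := h
  exact ⟨x, fun a ha => by simpa using hx a ha⟩

include hunc in
omit [WellFoundedLT W] in
theorem exists_gt_of_countable {A : Set W} (hA : A.Countable) : ∃ b, ∀ a ∈ A, a < b :=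
  exists_gt_of_small (lt_of_le_of_lt (by rwa [Cardinal.le_aleph0_iff_set_countable]) hunc)

include hunc in
theorem sup_seq {s : ℕ → W} (hs : StrictMono s) : ∃ a, IsLUB (range s) a ∧ CofOmega a := by
  obtain ⟨b, hb⟩ := exists_gt_of_countable hunc (countable_range s)
  obtain ⟨a, ha⟩ := exists_lub (A := range s) ⟨b, fun x hx => (hb x hx).le⟩
  exact ⟨a, ha, s, hs, ha⟩

include hreg hunc in
/-- Diagonal intersections of closed unbounded sets are closed and unbounded. -/
theorem diag {F : Pts W → Set (Pts W)} (hF : ∀ y, CU (F y)) {G : Set (Pts W)} (hG : CU G) :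
    CU {x : Pts W | x ∈ G ∧ ∀ y : Pts W, y.val < x.val → x ∈ F y} := by
  classical
  constructor
  · apply closed_of
    intro a ha
    by_cases h0 : ∀ b : W, ¬ b < a.val
    · exact Or.inl h0
    refine Or.inr ?_
    by_cases haG : a ∈ G
    · have : ∃ y : Pts W, y.val < a.val ∧ a ∉ F y := by
        by_contra hcon
        push Not at hcon
        exact ha ⟨haG, hcon⟩
      obtain ⟨y, hya, hy⟩ := this
      rcases (isOpen_iff _).1 (hF y).1.isOpen_compl a hy with h | ⟨b, hb, hbU⟩
      · exact absurd hya (h y.val)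
      · refine ⟨max b y.val, max_lt hb hya, fun c hc hca hcE => ?_⟩
        exact hbU c (lt_of_le_of_lt (le_max_left _ _) hc) hca
          (hcE.2 y (lt_of_le_of_lt (le_max_right _ _) hc))
    · rcases (isOpen_iff _).1 hG.1.isOpen_compl a haG with h | ⟨b, hb, hbU⟩
      · exact absurd h h0
      · exact ⟨b, hb, fun c hc hca hcE => hbU c hc hca hcE.1⟩
  · intro w0
    choose p hpF hp using fun y => (hF y).2
    choose q hqG hq using hG.2
    have hstep : ∀ w : W, ∃ b : W, w < b ∧ (∀ y : Pts W, y.val ≤ w → (p y w).val < b) ∧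
        (q w).val < b := by
      intro w
      have hnm : ∃ w' : W, w < w' := ⟨_, hq w⟩
      obtain ⟨w', hw'⟩ := hnm
      let A : Set W := (fun v : Iio w' => if h : CtblCof v.1 then (p ⟨v.1, h⟩ w).val else w) '' Set.univ
      have hA : #A < Order.cof W := by
        refine lt_of_le_of_lt Cardinal.mk_image_le ?_
        rw [Cardinal.mk_univ]
        exact hreg w'
      obtain ⟨b, hb⟩ := exists_gt_of_small hA
      refine ⟨max b (max w' (Classical.choose (⟨_, hq (q w).val⟩ : ∃ z, (q w).val < z))), ?_, ?_, ?_⟩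
      · exact lt_of_lt_of_le hw' ((le_max_left _ _).trans (le_max_right _ _))
      · intro y hy
        refine lt_of_lt_of_le (hb _ ⟨⟨y.val, lt_of_le_of_lt hy hw'⟩, mem_univ _, ?_⟩) (le_max_left _ _)
        simp only
        rw [dif_pos y.prop]
      · exact lt_of_lt_of_le (Classical.choose_spec (⟨_, hq (q w).val⟩ : ∃ z, (q w).val < z))
          ((le_max_right _ _).trans (le_max_right _ _))
    choose g hg1 hg2 hg3 using hstep
    let s : ℕ → W := fun n => g^[n] w0
    have hs1 : ∀ n, s (n + 1) = g (s n) := fun n => Function.iterate_succ_apply' g n w0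
    have hs : StrictMono s := strictMono_nat_of_lt_succ fun n => by rw [hs1]; exact hg1 _
    obtain ⟨a, ha, haω⟩ := sup_seq hunc hs
    have hlt : ∀ n, s n < a := fun n => lt_of_lt_of_le (hs (Nat.lt_succ_self n)) (ha.1 ⟨n + 1, rfl⟩)
    have hex : ∀ b, b < a → ∃ n, b < s n := by
      intro b hb
      by_contra hcon
      push Not at hcon
      exact absurd hb (not_lt.2 (ha.2 (by rintro _ ⟨n, rfl⟩; exact hcon n)))
    refine ⟨⟨a, haω.ctblCof⟩, ⟨?_, ?_⟩, hlt 0⟩
    · refine mem_of_closed hG.1 _ ⟨_, hlt 0⟩ fun b hb => ?_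
      obtain ⟨n, hn⟩ := hex b hb
      refine ⟨q (s n), hqG _, hn.trans (hq _), ?_⟩
      have := hg3 (s n)
      rw [← hs1] at this
      exact (this.trans (hlt _)).le
    · intro y hy
      obtain ⟨n0, hn0⟩ := hex _ hy
      refine mem_of_closed (hF y).1 _ ⟨_, hlt 0⟩ fun b hb => ?_
      obtain ⟨n1, hn1⟩ := hex b hb
      have h0 : y.val ≤ s (max n0 n1) := hn0.le.trans (hs.monotone (le_max_left _ _))
      refine ⟨p y (s (max n0 n1)), hpF _ _, ?_, ?_⟩
      · exact (lt_of_lt_of_le hn1 (hs.monotone (le_max_right _ _))).trans (hp _ _)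
      · have := hg2 (s (max n0 n1)) y h0
        rw [← hs1] at this
        exact (this.trans (hlt _)).le

include hunc in
/-- Small intersections of closed unbounded sets are closed and unbounded. -/
theorem inter_small {ι : Type u} (hι : #ι < Order.cof W) {F : ι → Set (Pts W)}
    (hF : ∀ i, CU (F i)) : CU (⋂ i, F i) := by
  refine ⟨isClosed_iInter fun i => (hF i).1, ?_⟩
  intro w0
  choose p hpF hp using fun i => (hF i).2
  have hstep : ∀ w : W, ∃ b : W, w < b ∧ ∀ i, (p i w).val < b := by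
    intro w
    obtain ⟨b1, hb1⟩ := exists_gt_of_countable hunc (Set.countable_singleton w)
    obtain ⟨b2, hb2⟩ := exists_gt_of_small (A := range fun i => (p i w).val)
      (lt_of_le_of_lt Cardinal.mk_range_le hι)
    exact ⟨max b1 b2, lt_of_lt_of_le (hb1 w rfl) (le_max_left _ _),
      fun i => lt_of_lt_of_le (hb2 _ ⟨i, rfl⟩) (le_max_right _ _)⟩
  choose g hg1 hg2 using hstep
  let s : ℕ → W := fun n => g^[n] w0
  have hs1 : ∀ n, s (n + 1) = g (s n) := fun n => Function.iterate_succ_apply' g n w0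
  have hs : StrictMono s := strictMono_nat_of_lt_succ fun n => by rw [hs1]; exact hg1 _
  obtain ⟨a, ha, haω⟩ := sup_seq hunc hs
  have hlt : ∀ n, s n < a := fun n => lt_of_lt_of_le (hs (Nat.lt_succ_self n)) (ha.1 ⟨n + 1, rfl⟩)
  have hex : ∀ b, b < a → ∃ n, b < s n := by
    intro b hb
    by_contra hcon
    push Not at hcon
    exact absurd hb (not_lt.2 (ha.2 (by rintro _ ⟨n, rfl⟩; exact hcon n)))
  refine ⟨⟨a, haω.ctblCof⟩, ?_, hlt 0⟩
  rw [mem_iInter]
  intro i
  refine mem_of_closed (hF i).1 _ ⟨_, hlt 0⟩ fun b hb => ?_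
  obtain ⟨n, hn⟩ := hex b hb
  refine ⟨p i (s n), hpF _ _, hn.trans (hp _ _), ?_⟩
  have := hg2 (s n) i
  rw [← hs1] at this
  exact (this.trans (hlt _)).le

include hunc in
theorem limPts_CU {A : Set (Pts W)} (hA : CU A) : CU (limPts A) := by
  constructor
  · apply closed_of
    intro x hx
    by_cases h0 : ∀ b : W, ¬ b < x.val
    · exact Or.inl h0
    refine Or.inr ?_
    have hx' : ∃ U : Set (Pts W), IsOpen U ∧ x ∈ U ∧ ∀ y ∈ A, y ∈ U → y = x := by
      by_contra hcon
      push Not at hcon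
      exact hx fun U hU hxU => by
        obtain ⟨y, hy, hyU, hne⟩ := hcon U hU hxU
        exact ⟨y, hy, hyU, hne⟩
    obtain ⟨U, hU, hxU, hUA⟩ := hx'
    rcases (isOpen_iff U).1 hU x hxU with h | ⟨b, hb, hbU⟩
    · exact absurd h h0
    · refine ⟨b, hb, fun c hc hcx hcl => ?_⟩
      by_cases hcx' : c = x
      · rw [hcx'] at hcl
        exact hx hcl
      · have hcx2 : c.val < x.val := lt_of_le_of_ne hcx fun h => hcx' (Pts.ext' h)
        obtain ⟨y, hy, ⟨hy1, hy2⟩, _⟩ := hcl ({z | b < z.val} ∩ {z | z.val ≤ c.val})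
          ((isOpen_gt b).inter (isOpen_le _)) ⟨hc, le_refl c.val⟩
        have hyx := hUA y hy (hbU y hy1 (le_trans hy2 hcx2.le))
        rw [hyx] at hy2
        exact absurd hcx2 (not_lt.2 hy2)
  · intro w0
    choose p hpA hp using hA.2
    let s : ℕ → W := fun n => (fun w => (p w).val)^[n] w0
    have hs1 : ∀ n, s (n + 1) = (p (s n)).val := fun n => Function.iterate_succ_apply' _ n w0
    have hs : StrictMono s := strictMono_nat_of_lt_succ fun n => by rw [hs1]; exact hp _
    obtain ⟨a, ha, haω⟩ := sup_seq hunc hs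
    have hlt : ∀ n, s n < a := fun n => lt_of_lt_of_le (hs (Nat.lt_succ_self n)) (ha.1 ⟨n + 1, rfl⟩)
    have hex : ∀ b, b < a → ∃ n, b < s n := by
      intro b hb
      by_contra hcon
      push Not at hcon
      exact absurd hb (not_lt.2 (ha.2 (by rintro _ ⟨n, rfl⟩; exact hcon n)))
    refine ⟨⟨a, haω.ctblCof⟩, ?_, hlt 0⟩
    intro U hU hxU
    rcases (isOpen_iff U).1 hU _ hxU with h | ⟨b, hb, hbU⟩
    · exact absurd (hlt 0) (h _)
    · obtain ⟨n, hn⟩ := hex b hb
      have h1 : (p (s n)).val < a := by rw [← hs1]; exact hlt _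
      exact ⟨p (s n), hpA _, hbU _ (hn.trans (hp _)) h1.le, fun h => by
        rw [h] at h1
        exact lt_irrefl _ h1⟩

include hunc in
theorem univ_CU : CU (Set.univ : Set (Pts W)) := by
  refine ⟨isClosed_univ, fun w => ?_⟩
  have hnm : ∀ v : W, ∃ v' : W, v < v' := by
    intro v
    obtain ⟨b, hb⟩ := exists_gt_of_countable hunc (Set.countable_singleton v)
    exact ⟨b, hb v rfl⟩
  choose g hg using hnm
  let s : ℕ → W := fun n => g^[n] w
  have hs1 : ∀ n, s (n + 1) = g (s n) := fun n => Function.iterate_succ_apply' g n w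
  have hs : StrictMono s := strictMono_nat_of_lt_succ fun n => by rw [hs1]; exact hg _
  obtain ⟨a, ha, haω⟩ := sup_seq hunc hs
  exact ⟨⟨a, haω.ctblCof⟩, mem_univ _, lt_of_lt_of_le (hs (Nat.lt_succ_self 0)) (ha.1 ⟨1, rfl⟩)⟩

include hunc in
theorem derivedSet_CU (o : Ordinal.{u}) (ho : o.card < Order.cof W) : CU (derivedSet (Pts W) o) := by
  induction o using Ordinal.limitRecOn with
  | zero =>
    rw [derivedSet_zero]
    exact univ_CU hunc
  | add_one o ih =>
    rw [derivedSet_add_one]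
    refine limPts_CU hunc (ih (lt_of_le_of_lt ?_ ho))
    exact Ordinal.card_le_card le_self_add
  | limit o hl ih =>
    rw [derivedSet_limit _ _ hl]
    have h : (⋂ (β : Ordinal.{u}) (_ : β < o), derivedSet (Pts W) β) =
        ⋂ i : o.ToType, derivedSet (Pts W) (Ordinal.typein (α := o.ToType) (· < ·) i) := by
      ext x
      simp only [mem_iInter]
      constructor
      · intro h i
        exact h _ (Ordinal.typein_lt_self i)
      · intro h β hβ
        have := h (Ordinal.enum (α := o.ToType) (· < ·) ⟨β, by rw [Ordinal.type_toType]; exact hβ⟩)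
        rwa [Ordinal.typein_enum] at this
    rw [h]
    apply inter_small hunc
    · rw [Cardinal.mk_toType]
      exact ho
    · intro i
      exact ih _ (Ordinal.typein_lt_self i)
        (lt_of_le_of_lt (Ordinal.card_le_card (Ordinal.typein_lt_self i).le) ho)

theorem le_typein_of_mem (o : Ordinal.{u}) (x : Pts W) (hx : x ∈ derivedSet (Pts W) o) :
    o ≤ Ordinal.typein (α := W) (· < ·) x.val := by
  induction o using Ordinal.limitRecOn generalizing x with
  | zero => exact zero_le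
  | add_one o ih =>
    rw [derivedSet_add_one] at hx
    obtain ⟨y, hy, hyx, hne⟩ := hx _ (isOpen_le x.val) (le_refl x.val)
    have h1 : y.val < x.val := lt_of_le_of_ne hyx fun h => hne (Pts.ext' h)
    have h2 := (Ordinal.typein_lt_typein (α := W) (· < ·)).2 h1
    exact Order.add_one_le_of_lt (lt_of_le_of_lt (ih y hy) h2)
  | limit o hl ih =>
    rw [derivedSet_limit _ _ hl] at hx
    simp only [mem_iInter] at hx
    by_contra hcon
    have hlt := not_le.1 hcon
    have h1 := hl.add_one_lt hlt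
    have h2 := ih _ h1 x (hx _ h1)
    exact absurd h2 (not_le.2 (lt_add_one _))

include hunc in
/-- The Cantor-Bendixson rank is the order type. -/
theorem hasRank (ho : ∀ o : Ordinal.{u}, o < Ordinal.type (α := W) (· < ·) → o.card < Order.cof W) :
    HasRank (Pts W) (Ordinal.type (α := W) (· < ·)) := by
  have hempty : derivedSet (Pts W) (Ordinal.type (α := W) (· < ·)) = ∅ := by
    rw [Set.eq_empty_iff_forall_notMem]
    intro x hx
    exact absurd (le_typein_of_mem _ x hx) (not_le.2 (Ordinal.typein_lt_type _ _))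
  constructor
  · show derivedSet (Pts W) (_ + 1) = derivedSet (Pts W) _
    rw [derivedSet_add_one, hempty, Set.eq_empty_iff_forall_notMem]
    intro x hx
    obtain ⟨y, hy, _⟩ := hx Set.univ isOpen_univ (mem_univ _)
    exact hy
  · intro ρ hρ
    by_contra hcon
    have hlt := not_le.1 hcon
    have hCU := derivedSet_CU hunc ρ (ho ρ hlt)
    obtain ⟨w, hw⟩ := exists_gt_of_countable hunc (A := ∅) countable_empty
    obtain ⟨x, hx, _⟩ := hCU.2 w
    obtain ⟨z, hz, U, hU, hUz⟩ := scattered _ ⟨x, hx⟩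
    have hz' : z ∈ derivedSet (Pts W) (ρ + 1) := by
      have : derivedSet (Pts W) (ρ + 1) = derivedSet (Pts W) ρ := hρ
      rw [this]
      exact hz
    rw [derivedSet_add_one] at hz'
    have hzU : z ∈ U := by
      have : z ∈ derivedSet (Pts W) ρ ∩ U := by rw [hUz]; rfl
      exact this.2
    obtain ⟨y, hy, hyU, hne⟩ := hz' U hU hzU
    have : y ∈ derivedSet (Pts W) ρ ∩ U := ⟨hy, hyU⟩
    rw [hUz] at this
    exact hne this

include hunc in
theorem countablyCompact : CountablyCompact (Pts W) := by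
  intro U hU hcov
  by_contra hcon
  push Not at hcon
  have hx : ∀ n : ℕ, ∃ x : Pts W, ∀ m ≤ n, x ∉ U m := by
    intro n
    have := hcon (Finset.range (n + 1))
    rw [Ne, Set.eq_univ_iff_forall] at this
    push Not at this
    obtain ⟨x, hx⟩ := this
    refine ⟨x, fun m hm hxm => hx ?_⟩
    simp only [mem_iUnion]
    exact ⟨m, Finset.mem_range.2 (Nat.lt_succ_of_le hm), hxm⟩
  choose x hx using hx
  -- a monotone subsequence
  obtain ⟨φ, hφ⟩ : ∃ φ : ℕ ↪o ℕ, ∀ m n : ℕ, m ≤ n → (x (φ m)).val ≤ (x (φ n)).val := by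
    rcases exists_increasing_or_nonincreasing_subseq (fun a b : W => a ≤ b)
      (fun n => (x n).val) with ⟨φ, hφ | hφ⟩
    · refine ⟨φ, fun m n hmn => ?_⟩
      rcases hmn.eq_or_lt with rfl | h
      · exact le_refl _
      · exact hφ m n h
    · exfalso
      obtain ⟨m, hm, hmin⟩ := WellFounded.has_min
        (wellFounded_lt : WellFounded ((· < ·) : W → W → Prop))
        (range fun n => (x (φ n)).val) (range_nonempty _)
      obtain ⟨n, rfl⟩ := hm
      have h1 := hφ n (n + 1) (Nat.lt_succ_self n)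
      exact hmin _ ⟨n + 1, rfl⟩ (not_le.1 h1)
  obtain ⟨b, hb⟩ := exists_gt_of_countable hunc
    (countable_range fun n => (x (φ n)).val)
  obtain ⟨a, ha⟩ := exists_lub (A := range fun n => (x (φ n)).val) ⟨b, fun x hx => (hb x hx).le⟩
  have hφn : ∀ n, n ≤ φ n := fun n => StrictMono.le_apply φ.strictMono
  by_cases hatt : ∃ n, (x (φ n)).val = a
  · obtain ⟨n, hn⟩ := hatt
    have hmem : x (φ n) ∈ ⋃ n, U n := by rw [hcov]; exact mem_univ _
    obtain ⟨m, hm⟩ := mem_iUnion.1 hmem
    have heq : x (φ (max m n)) = x (φ n) := by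
      apply Pts.ext'
      apply le_antisymm
      · rw [hn]; exact ha.1 ⟨_, rfl⟩
      · exact hφ _ _ (le_max_right _ _)
    have := hx (φ (max m n)) m ((le_max_left _ _).trans (hφn _))
    rw [heq] at this
    exact this hm
  · push Not at hatt
    have hlt : ∀ n, (x (φ n)).val < a := fun n => lt_of_le_of_ne (ha.1 ⟨n, rfl⟩) (hatt n)
    have hex : ∀ b, b < a → ∃ n, b < (x (φ n)).val := by
      intro b hb
      by_contra hcon
      push Not at hcon
      exact absurd hb (not_lt.2 (ha.2 (by rintro _ ⟨n, rfl⟩; exact hcon n)))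
    have hct : CtblCof a := ⟨range fun n => (x (φ n)).val, countable_range _,
      by rintro _ ⟨n, rfl⟩; exact hlt n, fun b hb => by
        obtain ⟨n, hn⟩ := hex b hb
        exact ⟨_, ⟨n, rfl⟩, hn.le⟩⟩
    have hmem : (⟨a, hct⟩ : Pts W) ∈ ⋃ n, U n := by rw [hcov]; exact mem_univ _
    obtain ⟨m, hm⟩ := mem_iUnion.1 hmem
    rcases (isOpen_iff _).1 (hU m) _ hm with h | ⟨c, hc, hcU⟩
    · exact h _ (hlt 0)
    · obtain ⟨n, hn⟩ := hex c hc
      refine hx (φ (max m n)) m ((le_max_left _ _).trans (hφn _)) (hcU _ ?_ (hlt _).le)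
      exact lt_of_lt_of_le hn (hφ _ _ (le_max_right _ _))

include hreg hunc in
/-- The main construction: a relation for which every nonempty closed set has a least element
agrees with the ordinal order on a stationary set. -/
theorem exists_stationary (R : Pts W → Pts W → Prop)
    (hmin : ∀ F : Set (Pts W), IsClosed F → F.Nonempty → ∃ m ∈ F, ∀ x ∈ F, R m x) :
    ∃ S : Set W, IsStationary S ∧ (∀ a ∈ S, CofOmega a) ∧
      (∀ x y : Pts W, x.val ∈ S → y.val ∈ S → y.val < x.val → R y x) ∧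
      (∀ x : Pts W, x.val ∈ S → ∃ F, CU F ∧ ∀ z ∈ F, R x z ∧ z ≠ x) := by
  classical
  let Low : Set (Pts W) := {y | ∃ F, CU F ∧ ∀ z ∈ F, R y z ∧ z ≠ y}
  have hLow : ∀ F, CU F → ∃ y ∈ F, y ∈ Low := by
    intro F hF
    have hW : Nonempty W := by
      by_contra h
      have : IsEmpty W := not_nonempty_iff.1 h
      rw [Order.cof_eq_zero] at hunc
      exact absurd hunc (by simp)
    obtain ⟨w⟩ := hW
    have hne : F.Nonempty := by
      obtain ⟨x, hx, _⟩ := hF.2 w
      exact ⟨x, hx⟩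
    obtain ⟨m, hmF, hm⟩ := hmin F hF.1 hne
    refine ⟨m, hmF, {z | z ∈ F ∧ m.val < z.val}, ⟨?_, ?_⟩, ?_⟩
    · apply closed_of
      intro a ha
      by_cases h0 : ∀ b : W, ¬ b < a.val
      · exact Or.inl h0
      refine Or.inr ?_
      by_cases haF : a ∈ F
      · have hle : a.val ≤ m.val := by
          by_contra hcon
          exact ha ⟨haF, not_le.1 hcon⟩
        push Not at h0
        obtain ⟨b, hb⟩ := h0
        exact ⟨b, hb, fun c _ hca hc => absurd hc.2 (not_lt.2 (hca.trans hle))⟩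
      · rcases (isOpen_iff _).1 hF.1.isOpen_compl a haF with h | ⟨b, hb, hbU⟩
        · exact absurd h h0
        · exact ⟨b, hb, fun c hc hca hcE => hbU c hc hca hcE.1⟩
    · intro w
      obtain ⟨x, hx, hwx⟩ := hF.2 (max w m.val)
      exact ⟨x, ⟨hx, lt_of_le_of_lt (le_max_right _ _) hwx⟩, lt_of_le_of_lt (le_max_left _ _) hwx⟩
    · rintro z ⟨hz, hmz⟩
      exact ⟨hm z hz, fun h => by rw [h] at hmz; exact lt_irrefl _ hmz⟩
  have hchoose : ∀ y : Pts W, ∃ F, CU F ∧ (y ∈ Low → ∀ z ∈ F, R y z ∧ z ≠ y) := by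
    intro y
    by_cases hy : y ∈ Low
    · obtain ⟨F, hF, hFy⟩ := hy
      exact ⟨F, hF, fun _ => hFy⟩
    · refine ⟨Set.univ, ⟨isClosed_univ, fun w => ?_⟩, fun h => absurd h hy⟩
      -- unboundedness of the whole space
      have hnm : ∀ v : W, ∃ v' : W, v < v' := by
        intro v
        obtain ⟨b, hb⟩ := exists_gt_of_countable hunc (Set.countable_singleton v)
        exact ⟨b, hb v rfl⟩
      choose g hg using hnm
      let s : ℕ → W := fun n => g^[n] w
      have hs1 : ∀ n, s (n + 1) = g (s n) := fun n => Function.iterate_succ_apply' g n w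
      have hs : StrictMono s := strictMono_nat_of_lt_succ fun n => by rw [hs1]; exact hg _
      obtain ⟨a, ha, haω⟩ := sup_seq hunc hs
      exact ⟨⟨a, haω.ctblCof⟩, mem_univ _, lt_of_lt_of_le (hs (Nat.lt_succ_self 0)) (ha.1 ⟨1, rfl⟩)⟩
  choose Fy hFy hFyR using hchoose
  refine ⟨{a | ∃ x : Pts W, x.val = a ∧ x ∈ Low ∧ CofOmega a ∧ ∀ y : Pts W, y.val < x.val → x ∈ Fy y},
    ?_, ?_, ?_, ?_⟩
  · intro C hC
    have hG : CU {x : Pts W | x.val ∈ C ∧ CofOmega x.val} := by
      constructor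
      · apply closed_of
        intro a ha
        by_cases h0 : ∀ b : W, ¬ b < a.val
        · exact Or.inl h0
        refine Or.inr ?_
        by_contra hcon
        push Not at hcon
        push Not at h0
        obtain ⟨b0, hb0⟩ := h0
        -- the elements of the set below `a` (or `a` itself) are cofinal
        have hcon' : ∀ b : W, b < a.val → ∃ c : Pts W, b < c.val ∧ c.val < a.val ∧ c.val ∈ C := by
          intro b hb
          obtain ⟨c, hbc, hca, hcC⟩ := hcon b hb
          refine ⟨c, hbc, lt_of_le_of_ne hca fun h => ha ?_, hcC.1⟩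
          rw [← Pts.ext' h]
          exact hcC
        have haC : a.val ∈ C := by
          refine hC.isLUB_mem (t := {c | c ∈ C ∧ c < a.val}) (fun c hc => hc.1) ?_ ?_
          · obtain ⟨c, _, h2, h3⟩ := hcon' b0 hb0
            exact ⟨c.val, h3, h2⟩
          · refine ⟨fun c hc => hc.2.le, fun b hb => ?_⟩
            by_contra hlt
            obtain ⟨c, h1, h2, h3⟩ := hcon' b (not_le.1 hlt)
            exact absurd (hb ⟨h3, h2⟩) (not_le.2 h1)
        have haω : CofOmega a.val := by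
          obtain ⟨s, hsc, hslt, hscof⟩ := a.prop
          have hsne : s.Nonempty := by
            obtain ⟨c, hc, _⟩ := hscof b0 hb0
            exact ⟨c, hc⟩
          obtain ⟨e, he⟩ := hsc.exists_eq_range hsne
          -- choose a strictly increasing sequence
          have hnext : ∀ (b : W), b < a.val → ∀ n : ℕ, ∃ c : W, b < c ∧ e n < c ∧ c < a.val := by
            intro b hb n
            have hen : e n < a.val := hslt _ (by rw [he]; exact ⟨n, rfl⟩)
            obtain ⟨c, h1, h2, _⟩ := hcon' (max b (e n)) (max_lt hb hen)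
            exact ⟨c.val, lt_of_le_of_lt (le_max_left _ _) h1, lt_of_le_of_lt (le_max_right _ _) h1, h2⟩
          choose! g hg1 hg2 hg3 using hnext
          let t : ℕ → W := fun n => Nat.rec b0 (fun k b => g b k) n
          have ht : ∀ n, t n < a.val := by
            intro n
            induction n with
            | zero => exact hb0
            | succ k ih => exact hg3 _ ih _
          refine ⟨t, strictMono_nat_of_lt_succ fun n => hg1 _ (ht n) _, ?_, ?_⟩
          · rintro _ ⟨n, rfl⟩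
            exact (ht n).le
          · intro b hb
            by_contra hlt
            obtain ⟨c, hc, hbc⟩ := hscof b (not_le.1 hlt)
            rw [he] at hc
            obtain ⟨n, rfl⟩ := hc
            have h1 : e n < t (n + 1) := hg2 _ (ht n) n
            have h2 : t (n + 1) ≤ b := hb ⟨n + 1, rfl⟩
            exact absurd (lt_of_le_of_lt hbc h1) (not_lt.2 h2)
        exact ha ⟨haC, haω⟩
      · intro w
        have hnext : ∀ v : W, ∃ c ∈ C, v < c := by
          intro v
          obtain ⟨b, hb⟩ := exists_gt_of_countable hunc (Set.countable_singleton v)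
          obtain ⟨c, hc, hbc⟩ := hC.isCofinal b
          exact ⟨c, hc, lt_of_lt_of_le (hb v rfl) hbc⟩
        choose g hgC hg using hnext
        let s : ℕ → W := fun n => g^[n] w
        have hs1 : ∀ n, s (n + 1) = g (s n) := fun n => Function.iterate_succ_apply' g n w
        have hs : StrictMono s := strictMono_nat_of_lt_succ fun n => by rw [hs1]; exact hg _
        obtain ⟨a, ha, haω⟩ := sup_seq hunc hs
        refine ⟨⟨a, haω.ctblCof⟩, ⟨?_, haω⟩, lt_of_lt_of_le (hs (Nat.lt_succ_self 0)) (ha.1 ⟨1, rfl⟩)⟩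
        refine hC.isLUB_mem (t := range fun n => s (n + 1)) ?_ (range_nonempty _) ?_
        · rintro _ ⟨n, rfl⟩
          show s (n + 1) ∈ C
          rw [hs1]
          exact hgC _
        · refine ⟨?_, fun b hb => ha.2 ?_⟩
          · rintro _ ⟨n, rfl⟩
            exact ha.1 ⟨n + 1, rfl⟩
          · rintro _ ⟨n, rfl⟩
            exact (hs (Nat.lt_succ_self n)).le.trans (hb ⟨n, rfl⟩)
    obtain ⟨y, hyE, hyL⟩ := hLow _ (diag hreg hunc hFy hG)
    exact ⟨y.val, ⟨y, rfl, hyL, hyE.1.2, hyE.2⟩, hyE.1.1⟩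
  · rintro a ⟨x, _, _, h, _⟩
    exact h
  · rintro x y ⟨x', hx', _, _, hx2⟩ ⟨y', hy', hyL, _, _⟩ hlt
    have e1 := Pts.ext' hx'
    have e2 := Pts.ext' hy'
    subst e1
    subst e2
    exact (hFyR _ hyL _ (hx2 _ hlt)).1
  · rintro x ⟨x', hx', hxL, _, _⟩
    have e1 := Pts.ext' hx'
    subst e1
    exact hxL

omit [WellFoundedLT W] in
theorem omega1_bdd {A : Set (Ordinal.omega.{u} 1).ToType} (hA : A.Countable) :
    ∃ j, ∀ i ∈ A, i < j := by
  refine exists_gt_of_small ?_
  have h1 : #A ≤ ℵ₀ := by rwa [Cardinal.le_aleph0_iff_set_countable]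
  refine lt_of_le_of_lt h1 ?_
  rw [Ordinal.cof_toType, Cardinal.isRegular_aleph_one.cof_omega_eq]
  exact Cardinal.aleph0_lt_aleph_one

omit [WellFoundedLT W] in
theorem omega1_Iio_countable (i : (Ordinal.omega.{u} 1).ToType) : (Iio i).Countable := by
  have hc : #((Ordinal.omega.{u} 1).ToType) = ℵ₁ := by
    rw [Cardinal.mk_toType, ← Cardinal.ord_aleph, Cardinal.card_ord]
  have h : #(Iio i) < ℵ₁ := by
    have := Cardinal.mk_Iio_lt i (by rw [hc, Cardinal.ord_aleph, Ordinal.type_toType])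
    rwa [hc] at this
  rw [← Cardinal.le_aleph0_iff_set_countable]
  rwa [← Cardinal.succ_aleph0, Order.lt_succ_iff] at h

omit [WellFoundedLT W] in
/-- Closed copies of `ω₁` are closed sets of points. -/
theorem closed_copy {f : (Ordinal.omega.{u} 1).ToType → W} (hf : Order.IsNormal f) :
    IsClosed {x : Pts W | ∃ i, f i = x.val} := by
  apply closed_of
  intro x hx
  by_cases h0 : ∀ b : W, ¬ b < x.val
  · exact Or.inl h0
  refine Or.inr ?_
  push Not at h0
  obtain ⟨b0, hb0⟩ := h0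
  have hx' : ∀ i, f i ≠ x.val := fun i hi => hx ⟨i, hi⟩
  by_cases hall : ∀ i, f i < x.val
  · obtain ⟨s, hsc, hslt, hscof⟩ := x.prop
    by_cases hc : ∃ c ∈ s, ∀ i, f i ≤ c
    · obtain ⟨c, hcs, hc⟩ := hc
      refine ⟨c, hslt c hcs, ?_⟩
      rintro z hz _ ⟨i, hi⟩
      exact absurd (hc i) (not_le.2 (by rw [hi]; exact hz))
    · exfalso
      push Not at hc
      have hne : Nonempty (Ordinal.omega.{u} 1).ToType :=
        ⟨(omega1_bdd (A := ∅) countable_empty).choose⟩
      choose! g hg using hc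
      obtain ⟨j, hj⟩ := omega1_bdd (A := g '' s) (hsc.image g)
      obtain ⟨c, hcs, hc⟩ := hscof (f j) (hall j)
      have h1 := hg c hcs
      have h2 := hf.strictMono (hj (g c) ⟨c, hcs, rfl⟩)
      exact absurd (lt_of_le_of_lt hc (h1.trans h2)) (lt_irrefl _)
  · push Not at hall
    obtain ⟨j, hj, hmin⟩ := WellFounded.has_min
      (wellFounded_lt : WellFounded ((· < ·) : (Ordinal.omega.{u} 1).ToType → _ → Prop))
      {i | x.val ≤ f i} hall
    have hj' : x.val < f j := lt_of_le_of_ne hj (Ne.symm (hx' j))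
    have hlow : ∀ i, i < j → f i < x.val := fun i hi => not_le.1 fun h => hmin i h hi
    by_cases hlim : IsSuccLimit j
    · exfalso
      have := hf.mem_lowerBounds_upperBounds_of_isSuccLimit hlim
        (show x.val ∈ upperBounds (f '' Iio j) by
          rintro _ ⟨i, hi, rfl⟩
          exact (hlow i hi).le)
      exact absurd this (not_le.2 hj')
    · rcases not_isSuccLimit_iff.1 hlim with hmin' | hpre
      · refine ⟨b0, hb0, ?_⟩
        rintro z _ hzx ⟨i, hi⟩
        have h1 : f i < f j := by rw [hi]; exact lt_of_le_of_lt hzx hj'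
        have h2 : i < j := hf.strictMono.lt_iff_lt.1 h1
        exact absurd (hmin' h2.le) (not_le.2 h2)
      · rw [not_isSuccPrelimit_iff] at hpre
        obtain ⟨i, hij⟩ := hpre
        refine ⟨f i, hlow i hij.lt, ?_⟩
        rintro z hz hzx ⟨k, hk⟩
        rw [← hk] at hz hzx
        have h1 : i < k := hf.strictMono.lt_iff_lt.1 hz
        have h2 : k < j := hf.strictMono.lt_iff_lt.1 (lt_of_le_of_lt hzx hj')
        exact hij.2 h1 h2

include hunc in
/-- A nonempty closed set of points containing no closed copy of `ω₁` has a largest element. -/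
theorem exists_max {F : Set (Pts W)} (hF : IsClosed F) (hne : F.Nonempty)
    (hno : NoCopy (Pts.val '' F)) : ∃ M ∈ F, ∀ x ∈ F, x.val ≤ M.val := by
  classical
  by_contra hcon
  push Not at hcon
  -- strict upper bounds of countable subsets
  have hstep : ∀ C : Set (Pts W), C.Countable → C ⊆ F → ∃ x ∈ F, ∀ c ∈ C, c.val < x.val := by
    intro C hC hCF
    by_cases hCne : C.Nonempty
    · obtain ⟨b, hb⟩ := exists_gt_of_countable hunc (hC.image Pts.val)
      obtain ⟨a, ha⟩ := exists_lub (A := Pts.val '' C) ⟨b, fun x hx => (hb x hx).le⟩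
      by_cases hatt : ∃ c ∈ C, c.val = a
      · obtain ⟨c, hc, rfl⟩ := hatt
        obtain ⟨x, hx, hcx⟩ := hcon c (hCF hc)
        exact ⟨x, hx, fun d hd => lt_of_le_of_lt (ha.1 ⟨d, hd, rfl⟩) hcx⟩
      · push Not at hatt
        have hlt : ∀ c ∈ C, c.val < a := fun c hc => lt_of_le_of_ne (ha.1 ⟨c, hc, rfl⟩) (hatt c hc)
        have hex : ∀ b, b < a → ∃ c ∈ C, b < c.val := by
          intro b hb
          by_contra h
          push Not at h
          exact absurd hb (not_lt.2 (ha.2 (by rintro _ ⟨c, hc, rfl⟩; exact h c hc)))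
        have hct : CtblCof a := ⟨Pts.val '' C, hC.image _, by rintro _ ⟨c, hc, rfl⟩; exact hlt c hc,
          fun b hb => by
            obtain ⟨c, hc, hbc⟩ := hex b hb
            exact ⟨_, ⟨c, hc, rfl⟩, hbc.le⟩⟩
        obtain ⟨c0, hc0⟩ := hCne
        refine ⟨⟨a, hct⟩, mem_of_closed hF _ ⟨_, hlt c0 hc0⟩ fun b hb => ?_, hlt⟩
        obtain ⟨c, hc, hbc⟩ := hex b hb
        exact ⟨c, hCF hc, hbc, (hlt c hc).le⟩
    · obtain ⟨x, hx⟩ := hne
      exact ⟨x, hx, fun c hc => absurd ⟨c, hc⟩ hCne⟩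
  -- least strict upper bounds in `F`
  have hleast : ∀ C : Set (Pts W), C.Countable → C ⊆ F → ∃ x ∈ F, (∀ c ∈ C, c.val < x.val) ∧
      ∀ y ∈ F, (∀ c ∈ C, c.val < y.val) → x.val ≤ y.val := by
    intro C hC hCF
    obtain ⟨x, hx, hxC⟩ := hstep C hC hCF
    obtain ⟨m, ⟨z, ⟨hzF, hzC⟩, rfl⟩, hmin⟩ := WellFounded.has_min
      (wellFounded_lt : WellFounded ((· < ·) : W → W → Prop))
      (Pts.val '' {x | x ∈ F ∧ ∀ c ∈ C, c.val < x.val}) ⟨_, ⟨x, ⟨hx, hxC⟩, rfl⟩⟩
    exact ⟨z, hzF, hzC, fun y hy hyC => not_lt.1 (hmin _ ⟨y, ⟨hy, hyC⟩, rfl⟩)⟩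
  obtain ⟨x0, hx0⟩ := hne
  let I := (Ordinal.omega.{u} 1).ToType
  let nxt : Set (Pts W) → Pts W := fun C =>
    if h : C.Countable ∧ C ⊆ F then Classical.choose (hleast C h.1 h.2) else x0
  have hnxt : ∀ C : Set (Pts W), C.Countable → C ⊆ F → nxt C ∈ F ∧ (∀ c ∈ C, c.val < (nxt C).val) ∧
      ∀ y ∈ F, (∀ c ∈ C, c.val < y.val) → (nxt C).val ≤ y.val := by
    intro C hC hCF
    have : nxt C = Classical.choose (hleast C hC hCF) := dif_pos ⟨hC, hCF⟩
    rw [this]
    exact Classical.choose_spec (hleast C hC hCF)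
  have hwf : WellFounded ((· < ·) : I → I → Prop) := wellFounded_lt
  let g : I → Pts W := hwf.fix fun i ih => nxt {x | ∃ (j : I) (h : j < i), ih j h = x}
  have hg : ∀ i, g i = nxt (g '' Iio i) := by
    intro i
    have h1 : g i = nxt {x | ∃ (j : I) (_ : j < i), g j = x} := hwf.fix_eq _ i
    rw [h1]
    congr 1
    ext x
    constructor
    · rintro ⟨j, hj, rfl⟩
      exact ⟨j, hj, rfl⟩
    · rintro ⟨j, hj, rfl⟩
      exact ⟨j, hj, rfl⟩
  have hgF : ∀ i, g i ∈ F := by
    intro i
    induction i using hwf.induction with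
    | _ i ih =>
      rw [hg i]
      exact (hnxt _ ((omega1_Iio_countable i).image g) (by rintro _ ⟨j, hj, rfl⟩; exact ih j hj)).1
  have hgs : ∀ i, (∀ j, j < i → (g j).val < (g i).val) ∧
      ∀ y ∈ F, (∀ j, j < i → (g j).val < y.val) → (g i).val ≤ y.val := by
    intro i
    have := (hnxt _ ((omega1_Iio_countable i).image g) (by rintro _ ⟨j, _, rfl⟩; exact hgF j)).2
    rw [← hg i] at this
    exact ⟨fun j hj => this.1 _ ⟨j, hj, rfl⟩, fun y hy hyj => this.2 y hy
      (by rintro _ ⟨j, hj, rfl⟩; exact hyj j hj)⟩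
  refine hno ⟨fun i => (g i).val, ⟨fun j i hji => (hgs i).1 j hji, ?_⟩, fun i => ⟨g i, hgF i, rfl⟩⟩
  intro i hi a ha
  obtain ⟨a0, ha0⟩ := exists_lub (A := (fun j => (g j).val) '' Iio i) ⟨a, ha⟩
  have hlt : ∀ j, j < i → (g j).val < a0 := by
    intro j hj
    have : ∃ k, j < k ∧ k < i := by
      by_contra h
      push Not at h
      exact hi.2 j ⟨hj, fun k h1 h2 => absurd h2 (not_lt.2 (h k h1))⟩
    obtain ⟨k, hjk, hki⟩ := this
    exact lt_of_lt_of_le ((hgs k).1 j hjk) (ha0.1 ⟨k, hki, rfl⟩)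
  have hex : ∀ b, b < a0 → ∃ j, j < i ∧ b < (g j).val := by
    intro b hb
    by_contra h
    push Not at h
    exact absurd hb (not_lt.2 (ha0.2 (by rintro _ ⟨j, hj, rfl⟩; exact h j hj)))
  have hct : CtblCof a0 := ⟨(fun j => (g j).val) '' Iio i, (omega1_Iio_countable i).image _,
    by rintro _ ⟨j, hj, rfl⟩; exact hlt j hj, fun b hb => by
      obtain ⟨j, hj, hbj⟩ := hex b hb
      exact ⟨_, ⟨j, hj, rfl⟩, hbj.le⟩⟩
  have hi0 : ∃ j, j < i := by
    by_contra h
    push Not at h
    exact hi.1 fun b _ => h b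
  obtain ⟨j0, hj0⟩ := hi0
  have hmem : (⟨a0, hct⟩ : Pts W) ∈ F := by
    refine mem_of_closed hF _ ⟨_, hlt j0 hj0⟩ fun b hb => ?_
    obtain ⟨j, hj, hbj⟩ := hex b hb
    exact ⟨g j, hgF j, hbj, (hlt j hj).le⟩
  exact ((hgs i).2 _ hmem hlt).trans (ha0.2 ha)

omit [WellFoundedLT W] in
theorem NoCopy.mono {S T : Set W} (h : S ⊆ T) (hT : NoCopy T) : NoCopy S :=
  fun ⟨f, hf, hfS⟩ => hT ⟨f, hf, fun i => h (hfS i)⟩

include hunc in
/-- A splitting of the points into two sets without closed copies of `ω₁` gives an order. -/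
theorem staeckel_of_partition (P : Set (Pts W)) (hP : NoCopy (Pts.val '' P))
    (hQ : NoCopy (Pts.val '' Pᶜ)) : Staeckel (Pts W) := by
  classical
  let e : Pts W → W ⊕ₗ Wᵒᵈ := fun x =>
    if x ∈ P then toLex (Sum.inl x.val) else toLex (Sum.inr (OrderDual.toDual x.val))
  have he1 : ∀ x, x ∈ P → e x = toLex (Sum.inl x.val) := fun x hx => if_pos hx
  have he2 : ∀ x, x ∉ P → e x = toLex (Sum.inr (OrderDual.toDual x.val)) := fun x hx => if_neg hx
  have hinj : Function.Injective e := by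
    intro x y hxy
    by_cases hx : x ∈ P <;> by_cases hy : y ∈ P
    · rw [he1 x hx, he1 y hy] at hxy
      exact Pts.ext' (by simpa using hxy)
    · rw [he1 x hx, he2 y hy] at hxy
      simp at hxy
    · rw [he2 x hx, he1 y hy] at hxy
      simp at hxy
    · rw [he2 x hx, he2 y hy] at hxy
      exact Pts.ext' (by simpa using hxy)
  have hPP : ∀ x y, x ∈ P → y ∈ P → x.val ≤ y.val → e x ≤ e y := by
    intro x y hx hy h
    rw [he1 x hx, he1 y hy]
    exact Sum.Lex.inl_le_inl_iff.2 h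
  have hQQ : ∀ x y, x ∉ P → y ∉ P → x.val ≤ y.val → e y ≤ e x := by
    intro x y hx hy h
    rw [he2 x hx, he2 y hy]
    exact Sum.Lex.inr_le_inr_iff.2 (OrderDual.toDual_le_toDual.2 h)
  have hPQ : ∀ x y, x ∈ P → y ∉ P → e x ≤ e y := by
    intro x y hx hy
    rw [he1 x hx, he2 y hy]
    exact Sum.Lex.inl_le_inr _ _
  refine ⟨LinearOrder.lift' e hinj, fun F hF hne => ⟨?_, ?_⟩⟩
  · by_cases hFP : (F ∩ P).Nonempty
    · obtain ⟨m, ⟨z, ⟨hzF, hzP⟩, rfl⟩, hmin⟩ := WellFounded.has_min
        (wellFounded_lt : WellFounded ((· < ·) : W → W → Prop)) (Pts.val '' (F ∩ P)) (hFP.image _)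
      refine ⟨z, hzF, fun x hx => ?_⟩
      show e z ≤ e x
      by_cases hxP : x ∈ P
      · exact hPP z x hzP hxP (not_lt.1 (hmin _ ⟨x, ⟨hx, hxP⟩, rfl⟩))
      · exact hPQ z x hzP hxP
    · have hsub : F ⊆ Pᶜ := fun x hx hxP => hFP ⟨x, hx, hxP⟩
      obtain ⟨M, hM, hmax⟩ := exists_max hunc hF hne (NoCopy.mono (image_mono hsub) hQ)
      exact ⟨M, hM, fun x hx => hQQ x M (hsub hx) (hsub hM) (hmax x hx)⟩
  · by_cases hFQ : (F ∩ Pᶜ).Nonempty
    · obtain ⟨m, ⟨z, ⟨hzF, hzP⟩, rfl⟩, hmin⟩ := WellFounded.has_min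
        (wellFounded_lt : WellFounded ((· < ·) : W → W → Prop)) (Pts.val '' (F ∩ Pᶜ)) (hFQ.image _)
      refine ⟨z, hzF, fun x hx => ?_⟩
      show e x ≤ e z
      by_cases hxP : x ∈ P
      · exact hPQ x z hxP hzP
      · exact hQQ z x hzP hxP (not_lt.1 (hmin _ ⟨x, ⟨hx, hxP⟩, rfl⟩))
    · have hsub : F ⊆ P := fun x hx => by
        by_contra hxP
        exact hFQ ⟨x, hx, hxP⟩
      obtain ⟨M, hM, hmax⟩ := exists_max hunc hF hne (NoCopy.mono (image_mono hsub) hP)
      exact ⟨M, hM, fun x hx => hPP x M (hsub hx) (hsub hM) (hmax x hx)⟩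

include hreg hunc in
/-- If the space is Stäckel-compact, there are disjoint stationary sets without copies of `ω₁`. -/
theorem of_staeckel (h : Staeckel (Pts W)) :
    ∃ S T : Set W, Disjoint S T ∧ IsStationary S ∧ IsStationary T ∧
      (∀ a ∈ S ∪ T, CofOmega a) ∧ NoCopy S ∧ NoCopy T := by
  obtain ⟨r, hr⟩ := h
  obtain ⟨S, hS1, hS2, hS3, hS4⟩ := exists_stationary hreg hunc (fun a b => r.le a b)
    (fun F hF hne => (hr F hF hne).1)
  obtain ⟨T, hT1, hT2, hT3, hT4⟩ := exists_stationary hreg hunc (fun a b => r.le b a)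
    (fun F hF hne => (hr F hF hne).2)
  have hcopy : ∀ f : (Ordinal.omega.{u} 1).ToType → W, Order.IsNormal f → (∀ i, CofOmega (f i)) →
      ∃ i j : (Ordinal.omega.{u} 1).ToType, ∃ M m : Pts W, f i < f j ∧ M.val = f i ∧ m.val = f j ∧
        r.le m M := by
    intro f hf hfω
    have hne : Nonempty (Ordinal.omega.{u} 1).ToType :=
      ⟨(omega1_bdd (A := ∅) countable_empty).choose⟩
    obtain ⟨i0⟩ := hne
    obtain ⟨M, ⟨i, hi⟩, hM⟩ := (hr _ (closed_copy hf) ⟨⟨f i0, (hfω i0).ctblCof⟩, i0, rfl⟩).2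
    obtain ⟨j, hj⟩ := omega1_bdd (A := {i}) (countable_singleton i)
    exact ⟨i, j, M, ⟨f j, (hfω j).ctblCof⟩, hf.strictMono (hj i rfl), hi.symm, rfl,
      hM _ ⟨j, rfl⟩⟩
  have hcopy' : ∀ f : (Ordinal.omega.{u} 1).ToType → W, Order.IsNormal f → (∀ i, CofOmega (f i)) →
      ∃ i j : (Ordinal.omega.{u} 1).ToType, ∃ M m : Pts W, f i < f j ∧ M.val = f i ∧ m.val = f j ∧
        r.le M m := by
    intro f hf hfω
    have hne : Nonempty (Ordinal.omega.{u} 1).ToType :=
      ⟨(omega1_bdd (A := ∅) countable_empty).choose⟩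
    obtain ⟨i0⟩ := hne
    obtain ⟨M, ⟨i, hi⟩, hM⟩ := (hr _ (closed_copy hf) ⟨⟨f i0, (hfω i0).ctblCof⟩, i0, rfl⟩).1
    obtain ⟨j, hj⟩ := omega1_bdd (A := {i}) (countable_singleton i)
    exact ⟨i, j, M, ⟨f j, (hfω j).ctblCof⟩, hf.strictMono (hj i rfl), hi.symm, rfl,
      hM _ ⟨j, rfl⟩⟩
  refine ⟨S, T, ?_, hS1, hT1, ?_, ?_, ?_⟩
  · rw [Set.disjoint_left]
    intro a haS haT
    have hct : CtblCof a := (hS2 a haS).ctblCof
    obtain ⟨F, hF, hFR⟩ := hS4 ⟨a, hct⟩ haS
    obtain ⟨G, hG, hGR⟩ := hT4 ⟨a, hct⟩ haT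
    have hE := diag hreg hunc (F := fun _ => F) (fun _ => hF) hG
    obtain ⟨z, ⟨hzG, hzF⟩, hz⟩ := hE.2 a
    have hzF' := hzF ⟨a, hct⟩ hz
    exact (hFR z hzF').2 (r.le_antisymm _ _ (hGR z hzG).1 (hFR z hzF').1)
  · rintro a (ha | ha)
    · exact hS2 a ha
    · exact hT2 a ha
  · rintro ⟨f, hf, hfS⟩
    obtain ⟨i, j, M, m, hij, hM, hm, hle⟩ := hcopy f hf (fun i => hS2 _ (hfS i))
    have h1 := hS3 m M (by rw [hm]; exact hfS j) (by rw [hM]; exact hfS i) (by rw [hm, hM]; exact hij)
    have h2 : M = m := r.le_antisymm _ _ h1 hle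
    rw [← hM, ← hm, h2] at hij
    exact lt_irrefl _ hij
  · rintro ⟨f, hf, hfT⟩
    obtain ⟨i, j, M, m, hij, hM, hm, hle⟩ := hcopy' f hf (fun i => hT2 _ (hfT i))
    have h1 := hT3 m M (by rw [hm]; exact hfT j) (by rw [hM]; exact hfT i) (by rw [hm, hM]; exact hij)
    have h2 : M = m := r.le_antisymm _ _ hle h1
    rw [← hM, ← hm, h2] at hij
    exact lt_irrefl _ hij

end Regular

end General

/-- Friedman's property of `κ`: every stationary set of points of cofinality `ω` contains a closed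
copy of `ω₁`. -/
def FriedmanProperty (κ : Cardinal.{u}) : Prop :=
  ∀ S : Set κ.ord.ToType, IsStationary S → (∀ a ∈ S, CofOmega a) →
    ∃ f : (Ordinal.omega.{u} 1).ToType → κ.ord.ToType, Order.IsNormal f ∧ ∀ i, f i ∈ S

/-- The space of the ordinals below `κ` of countable cofinality. -/
abbrev Space (κ : Cardinal.{u}) : Type u := Pts κ.ord.ToType

theorem result (κ : Cardinal.{u}) (hκ : κ.IsRegular) (hκ' : ℵ₀ < κ) :
    (T2Space (Space κ) ∧ ZeroDimensional (Space κ) ∧ Scattered (Space κ) ∧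
      HasRank (Space κ) κ.ord ∧ CountablyCompact (Space κ)) ∧
    (FriedmanProperty κ → ¬ Staeckel (Space κ)) ∧
    ((∀ (X : Type u) [TopologicalSpace X], T2Space X → CountablyCompact X → Staeckel X) →
      ¬ FriedmanProperty κ) ∧
    (Staeckel (Space κ) → ∃ S T : Set κ.ord.ToType, Disjoint S T ∧ IsStationary S ∧
      IsStationary T ∧ (∀ a ∈ S ∪ T, CofOmega a) ∧ NoCopy S ∧ NoCopy T) ∧
    ((∃ P : Set (Space κ), NoCopy (Pts.val '' P) ∧ NoCopy (Pts.val '' Pᶜ)) →
      Staeckel (Space κ)) := by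
  have hcof : Order.cof κ.ord.ToType = κ := by
    rw [Ordinal.cof_toType, hκ.cof_ord]
  have hmk : #κ.ord.ToType = κ := by
    rw [Cardinal.mk_toType, Cardinal.card_ord]
  have hreg : ∀ a : κ.ord.ToType, #(Iio a) < Order.cof κ.ord.ToType := by
    intro a
    have := Cardinal.mk_Iio_lt a (by rw [hmk, Ordinal.type_toType])
    rw [hcof]
    rwa [hmk] at this
  have hunc : ℵ₀ < Order.cof κ.ord.ToType := by rw [hcof]; exact hκ'
  have hcc : CountablyCompact (Space κ) := countablyCompact hunc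
  have hrk : HasRank (Space κ) κ.ord := by
    have h := hasRank (W := κ.ord.ToType) hunc (fun o ho => by
      rw [Ordinal.type_toType] at ho
      rw [hcof]
      exact Cardinal.lt_ord.1 ho)
    rwa [Ordinal.type_toType] at h
  have hmain : FriedmanProperty κ → ¬ Staeckel (Space κ) := by
    intro hFr hSt
    obtain ⟨S, T, _, hS, _, hω, hnS, _⟩ := of_staeckel hreg hunc hSt
    exact hnS (hFr S hS fun a ha => hω a (Or.inl ha))
  exact ⟨⟨inferInstance, zeroDimensional, scattered, hrk, hcc⟩, hmain,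
    fun hQ hFr => hmain hFr (hQ (Space κ) inferInstance hcc),
    fun hSt => of_staeckel hreg hunc hSt, fun ⟨P, h1, h2⟩ => staeckel_of_partition hunc P h1 h2⟩

end Pool.Agent.Results.MP_fafcbd_gt.Friedman
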