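import Mathlib

/-!
# Stäckel-compactness of spaces without small infinite closed sets
-/

open Set Cardinal Topology Filter

universe u

namespace Pool.Agent.Results.MP_fafcbd_gt.NoSequences

/-- Every countable open cover has a finite subcover. -/
def CountablyCompact (X : Type u) [TopologicalSpace X] : Prop :=
  ∀ U : ℕ → Set X, (∀ n, IsOpen (U n)) → (⋃ n, U n) = Set.univ →
    ∃ t : Finset ℕ, (⋃ n ∈ t, U n) = Set.univ

/-- Some linear order on `X` gives every nonempty closed set a least and a greatest element. -/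
def Staeckel (X : Type u) [TopologicalSpace X] : Prop :=
  ∃ r : LinearOrder X, ∀ F : Set X, IsClosed F → F.Nonempty →
    (∃ m ∈ F, ∀ x ∈ F, r.le m x) ∧ (∃ M ∈ F, ∀ x ∈ F, r.le x M)

theorem exists_inj_choice {I X : Type u} (K : I → Set X) (h : ∀ i, #I ≤ #(K i)) :
    ∃ c : I → X, Function.Injective c ∧ ∀ i, c i ∈ K i := by
  classical
  obtain ⟨r, hwo, hr⟩ := Cardinal.ord_eq I
  have hseg : ∀ i : I, #{j // r j i} < #I := by
    intro i
    exact Cardinal.card_typein_lt i hr
  have hex : ∀ (i : I) (g : ∀ j : I, r j i → X), ∃ x ∈ K i, ∀ j (hj : r j i), g j hj ≠ x := by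
    intro i g
    by_contra hcon
    push Not at hcon
    have h1 : K i ⊆ range fun j : {j // r j i} => g j.1 j.2 := by
      intro x hx
      obtain ⟨j, hj, h2⟩ := hcon x hx
      exact ⟨⟨j, hj⟩, h2⟩
    exact absurd ((h i).trans ((Cardinal.mk_le_mk_of_subset h1).trans Cardinal.mk_range_le))
      (not_le_of_gt (hseg i))
  let c : I → X := hwo.wf.fix fun i g => Classical.choose (hex i g)
  have hc : ∀ i, c i ∈ K i ∧ ∀ j, r j i → c j ≠ c i := by
    intro i
    have h2 : c i = Classical.choose (hex i fun j _ => c j) := hwo.wf.fix_eq _ i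
    have h3 := Classical.choose_spec (hex i fun j _ => c j)
    rw [← h2] at h3
    exact h3
  refine ⟨c, ?_, fun i => (hc i).1⟩
  intro i j hij
  by_contra hne
  rcases trichotomous_of r i j with h1 | h1 | h1
  · exact (hc j).2 i h1 hij
  · exact hne h1
  · exact (hc i).2 j h1 hij.symm

/-- If all infinite closed sets are large, the space has the required order. -/
theorem staeckel_of_card (X : Type u) [TopologicalSpace X] (μ : Cardinal.{u}) (hμ : μ ^ ℵ₀ = μ)
    (hX : #X ≤ μ) (hF : ∀ F : Set X, IsClosed F → F.Infinite → μ ≤ #F) : Staeckel X := by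
  classical
  -- a set meeting every infinite closed set together with its complement
  have hP : ∃ P : Set X, ∀ F : Set X, IsClosed F → F.Infinite → (F ∩ P).Nonempty ∧
      (F ∩ Pᶜ).Nonempty := by
    by_cases hfin : Finite X
    · exact ⟨∅, fun F _ hinf => absurd (Set.toFinite F) hinf⟩
    have hinf : Infinite X := not_finite_iff_infinite.1 hfin
    have hμX : μ ≤ #X := by
      have := hF Set.univ isClosed_univ Set.infinite_univ
      rwa [Cardinal.mk_univ] at this
    have hμ0 : ℵ₀ ≤ μ := (Cardinal.infinite_iff.1 hinf).trans hX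
    let I : Type u := {w : ℕ → X // Function.Injective w} × Bool
    have hI : #I ≤ μ := by
      have h1 : #{w : ℕ → X // Function.Injective w} ≤ μ := by
        refine (Cardinal.mk_subtype_le _).trans ?_
        have h2 : #(ℕ → X) = #X ^ ℵ₀ := by simp
        rw [h2]
        calc #X ^ ℵ₀ ≤ μ ^ ℵ₀ := Cardinal.power_le_power_right hX
          _ = μ := hμ
      have h3 : #I = #{w : ℕ → X // Function.Injective w} * 2 := by
        simp [I, Cardinal.mk_prod]
      rw [h3]
      calc #{w : ℕ → X // Function.Injective w} * 2 ≤ μ * μ :=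
            mul_le_mul' h1 ((Cardinal.nat_lt_aleph0 2).le.trans hμ0)
        _ = μ := Cardinal.mul_eq_self hμ0
    obtain ⟨c, hc, hcK⟩ := exists_inj_choice (I := I) (X := X)
      (fun i => closure (range i.1.1)) (fun i => hI.trans (hF _ isClosed_closure
        ((Set.infinite_range_of_injective i.1.2).mono subset_closure)))
    refine ⟨range fun w => c (w, true), fun F hFc hFinf => ?_⟩
    haveI : Infinite F := hFinf.to_subtype
    let w : ℕ ↪ F := Infinite.natEmbedding F
    have hw : Function.Injective fun n => (w n : X) := fun a b h => w.injective (Subtype.ext h)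
    have hcl : closure (range fun n => (w n : X)) ⊆ F :=
      closure_minimal (by rintro _ ⟨n, rfl⟩; exact (w n).2) hFc
    refine ⟨⟨c (⟨_, hw⟩, true), hcl (hcK (⟨_, hw⟩, true)), ⟨_, rfl⟩⟩,
      ⟨c (⟨_, hw⟩, false), hcl (hcK (⟨_, hw⟩, false)), ?_⟩⟩
    rintro ⟨v, hv⟩
    have h5 : ((v, true) : I) = ((⟨_, hw⟩, false) : I) := hc hv
    have h6 : true = false := congrArg Prod.snd h5
    exact Bool.noConfusion h6
  obtain ⟨P, hP⟩ := hP
  let W := (#X).ord.ToType
  obtain ⟨g⟩ : Nonempty (X ≃ W) := Cardinal.eq.1 (by rw [Cardinal.mk_toType, Cardinal.card_ord])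
  let e : X → W ⊕ₗ Wᵒᵈ := fun x =>
    if x ∈ P then toLex (Sum.inl (g x)) else toLex (Sum.inr (OrderDual.toDual (g x)))
  have he1 : ∀ x, x ∈ P → e x = toLex (Sum.inl (g x)) := fun x hx => if_pos hx
  have he2 : ∀ x, x ∉ P → e x = toLex (Sum.inr (OrderDual.toDual (g x))) := fun x hx => if_neg hx
  have hinj : Function.Injective e := by
    intro x y hxy
    by_cases hx : x ∈ P <;> by_cases hy : y ∈ P
    · rw [he1 x hx, he1 y hy] at hxy
      exact g.injective (by simpa using hxy)
    · rw [he1 x hx, he2 y hy] at hxy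
      simp at hxy
    · rw [he2 x hx, he1 y hy] at hxy
      simp at hxy
    · rw [he2 x hx, he2 y hy] at hxy
      exact g.injective (by simpa using hxy)
  refine ⟨LinearOrder.lift' e hinj, fun F hFc hne => ?_⟩
  by_cases hfin : F.Finite
  · obtain ⟨m, hm, hm'⟩ := Set.exists_min_image F e hfin hne
    obtain ⟨M, hM, hM'⟩ := Set.exists_max_image F e hfin hne
    exact ⟨⟨m, hm, hm'⟩, ⟨M, hM, hM'⟩⟩
  obtain ⟨h1, h2⟩ := hP F hFc hfin
  constructor
  · obtain ⟨m, ⟨z, ⟨hzF, hzP⟩, rfl⟩, hmin⟩ := WellFounded.has_min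
      (wellFounded_lt : WellFounded ((· < ·) : W → W → Prop)) (g '' (F ∩ P)) (h1.image _)
    refine ⟨z, hzF, fun x hx => ?_⟩
    show e z ≤ e x
    by_cases hxP : x ∈ P
    · rw [he1 z hzP, he1 x hxP]
      exact Sum.Lex.inl_le_inl_iff.2 (not_lt.1 (hmin _ ⟨x, ⟨hx, hxP⟩, rfl⟩))
    · rw [he1 z hzP, he2 x hxP]
      exact Sum.Lex.inl_le_inr _ _
  · obtain ⟨m, ⟨z, ⟨hzF, hzP⟩, rfl⟩, hmin⟩ := WellFounded.has_min
      (wellFounded_lt : WellFounded ((· < ·) : W → W → Prop)) (g '' (F ∩ Pᶜ)) (h2.image _)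
    refine ⟨z, hzF, fun x hx => ?_⟩
    show e x ≤ e z
    by_cases hxP : x ∈ P
    · rw [he1 x hxP, he2 z hzP]
      exact Sum.Lex.inl_le_inr _ _
    · rw [he2 x hxP, he2 z hzP]
      exact Sum.Lex.inr_le_inr_iff.2 (OrderDual.toDual_le_toDual.2
        (not_lt.1 (hmin _ ⟨x, ⟨hx, hxP⟩, rfl⟩)))

section Continuum

variable {X : Type u} [TopologicalSpace X]

/-- Decreasing nonempty closed sets have a common point. -/
theorem CountablyCompact.inter (hX : CountablyCompact X) (C : ℕ → Set X)
    (hC : ∀ n, IsClosed (C n)) (hne : ∀ n, (C n).Nonempty) (hdec : ∀ m n, m ≤ n → C n ⊆ C m) :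
    ∃ x, ∀ n, x ∈ C n := by
  by_contra hcon
  push Not at hcon
  obtain ⟨t, ht⟩ := hX (fun n => (C n)ᶜ) (fun n => (hC n).isOpen_compl) (by
    rw [Set.eq_univ_iff_forall]
    intro x
    obtain ⟨n, hn⟩ := hcon x
    exact mem_iUnion.2 ⟨n, hn⟩)
  obtain ⟨x, hx⟩ := hne (t.sup id)
  have : x ∈ ⋃ n ∈ t, (C n)ᶜ := by rw [ht]; exact mem_univ _
  simp only [mem_iUnion] at this
  obtain ⟨n, hn, hxn⟩ := this
  exact hxn (hdec n _ (Finset.le_sup (f := id) hn) hx)

/-- Every infinite set has a point all of whose neighbourhoods meet it in an infinite set. -/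
theorem CountablyCompact.acc (hX : CountablyCompact X) (B : Set X) (hB : B.Infinite) :
    ∃ x, ∀ U : Set X, IsOpen U → x ∈ U → (U ∩ B).Infinite := by
  haveI : Infinite B := hB.to_subtype
  let b : ℕ ↪ B := Infinite.natEmbedding B
  obtain ⟨x, hx⟩ := hX.inter (fun n => closure {y | ∃ m, n ≤ m ∧ (b m : X) = y})
    (fun n => isClosed_closure) (fun n => ⟨b n, subset_closure ⟨n, le_refl n, rfl⟩⟩)
    (fun m n hmn => closure_mono (by
      rintro _ ⟨k, hk, rfl⟩
      exact ⟨k, hmn.trans hk, rfl⟩))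
  refine ⟨x, fun U hU hxU hfin => ?_⟩
  -- the indices of the sequence inside `U` are bounded
  have hfin' : {m : ℕ | (b m : X) ∈ U}.Finite := by
    refine Set.Finite.of_finite_image (f := fun m => (b m : X)) (hfin.subset ?_) ?_
    · rintro _ ⟨m, hm, rfl⟩
      exact ⟨hm, (b m).2⟩
    · intro m _ n _ h
      exact b.injective (Subtype.ext h)
  obtain ⟨N, hN⟩ := hfin'.bddAbove
  obtain ⟨y, hyU, m, hm, rfl⟩ := mem_closure_iff.1 (hx (N + 1)) U hU hxU
  have := hN hyU
  omega

theorem card_ge [T3Space X] (hX : CountablyCompact X)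
    (hs : ∀ (s : ℕ → X) (x : X), Function.Injective s → ¬ Tendsto s atTop (𝓝 x))
    (F : Set X) (hF : IsClosed F) (hinf : F.Infinite) : 𝔠 ≤ #F := by
  classical
  let A : Set X := {x | x ∈ F ∧ ∀ U : Set X, IsOpen U → x ∈ U → (U ∩ F).Infinite}
  -- accumulation points of subsets of `F` are in `A`
  have hacc : ∀ B : Set X, B ⊆ F → B.Infinite → ∃ y ∈ A, (∀ U : Set X, IsOpen U → y ∈ U →
      (U ∩ B).Infinite) := by
    intro B hBF hB
    obtain ⟨y, hy⟩ := hX.acc B hB
    refine ⟨y, ⟨?_, fun U hU hyU => (hy U hU hyU).mono (inter_subset_inter_right _ hBF)⟩, hy⟩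
    by_contra hyF
    have := hy Fᶜ hF.isOpen_compl hyF
    refine this ?_
    have h0 : Fᶜ ∩ B = ∅ := by
      ext z
      simp only [mem_inter_iff, mem_compl_iff, mem_empty_iff_false, iff_false, not_and]
      exact fun hz hzB => hz (hBF hzB)
    rw [h0]
    exact Set.finite_empty
  -- two accumulation points in every open set containing one
  have htwo : ∀ V : Set X, IsOpen V → ∀ x ∈ A, x ∈ V → ∃ y ∈ A, y ∈ V ∧ y ≠ x := by
    intro V hV x hxA hxV
    obtain ⟨V', hV'1, hV'2, hV'3⟩ : ∃ V' : Set X, IsOpen V' ∧ x ∈ V' ∧ closure V' ⊆ V := by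
      obtain ⟨t, ht, htc, htV⟩ := exists_mem_nhds_isClosed_subset (hV.mem_nhds hxV)
      exact ⟨interior t, isOpen_interior, mem_interior_iff_mem_nhds.2 ht,
        (closure_minimal interior_subset htc).trans htV⟩
    have hinf' : ((V' ∩ F) \ {x}).Infinite := (hxA.2 V' hV'1 hV'2).diff (Set.finite_singleton x)
    haveI : Infinite ↥((V' ∩ F) \ {x}) := hinf'.to_subtype
    let b : ℕ ↪ ↥((V' ∩ F) \ {x}) := Infinite.natEmbedding _
    have hbinj : Function.Injective fun n => (b n : X) :=
      fun m n h => b.injective (Subtype.ext h)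
    have hnot := hs (fun n => (b n : X)) x hbinj
    rw [tendsto_atTop_nhds] at hnot
    push Not at hnot
    obtain ⟨U, hxU, hU, hUn⟩ := hnot
    let B : Set X := {y | ∃ n, (b n : X) = y ∧ (b n : X) ∉ U}
    have hBinf : B.Infinite := by
      have h1 : {n : ℕ | (b n : X) ∉ U}.Infinite := by
        intro hfin
        obtain ⟨N, hN⟩ := hfin.bddAbove
        obtain ⟨n, hn, hnU⟩ := hUn (N + 1)
        have h3 : n ≤ N := hN hnU
        omega
      have h2 := h1.image (f := fun n => (b n : X)) (hbinj.injOn)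
      refine h2.mono ?_
      rintro _ ⟨n, hn, rfl⟩
      exact ⟨n, rfl, hn⟩
    obtain ⟨y, hyA, hy⟩ := hacc B (by rintro _ ⟨n, rfl, _⟩; exact (b n).2.1.2) hBinf
    refine ⟨y, hyA, hV'3 ?_, ?_⟩
    · rw [mem_closure_iff]
      intro O hO hyO
      obtain ⟨z, hz⟩ := (hy O hO hyO).nonempty
      obtain ⟨hzO, n, rfl, _⟩ := hz
      exact ⟨b n, hzO, (b n).2.1.1⟩
    · rintro rfl
      obtain ⟨z, hzU, n, rfl, hn⟩ := (hy U hU hxU).nonempty
      exact hn hzU
  -- splitting good open sets
  let G : Type u := {V : Set X // IsOpen V ∧ ∃ x ∈ A, x ∈ V}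
  have hsplit : ∀ V : G, ∃ V0 V1 : G, closure V0.1 ⊆ V.1 ∧ closure V1.1 ⊆ V.1 ∧
      Disjoint (closure V0.1) (closure V1.1) := by
    rintro ⟨V, hV, x, hxA, hxV⟩
    obtain ⟨y, hyA, hyV, hne⟩ := htwo V hV x hxA hxV
    obtain ⟨u, hxu, hu, v, hyv, hv, huv⟩ := exists_open_nhds_disjoint_closure hne.symm
    have hreg : ∀ z ∈ V, ∃ O : Set X, IsOpen O ∧ z ∈ O ∧ closure O ⊆ V := by
      intro z hz
      obtain ⟨t, ht, htc, htV⟩ := exists_mem_nhds_isClosed_subset (hV.mem_nhds hz)
      exact ⟨interior t, isOpen_interior, mem_interior_iff_mem_nhds.2 ht,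
        (closure_minimal interior_subset htc).trans htV⟩
    obtain ⟨O1, hO1, hxO1, hO1V⟩ := hreg x hxV
    obtain ⟨O2, hO2, hyO2, hO2V⟩ := hreg y hyV
    refine ⟨⟨u ∩ O1, hu.inter hO1, x, hxA, hxu, hxO1⟩, ⟨v ∩ O2, hv.inter hO2, y, hyA, hyv, hyO2⟩,
      ?_, ?_, ?_⟩
    · exact (closure_mono inter_subset_right).trans hO1V
    · exact (closure_mono inter_subset_right).trans hO2V
    · exact huv.mono (closure_mono inter_subset_left) (closure_mono inter_subset_left)
  choose g0 g1 hg0 hg1 hg using hsplit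
  let step : Bool → G → G := fun b V => if b then g0 V else g1 V
  have hstep : ∀ b V, closure (step b V).1 ⊆ V.1 := by
    intro b V
    cases b
    · exact hg1 V
    · exact hg0 V
  obtain ⟨x0, hx0, _⟩ := hacc F (subset_refl F) hinf
  let V0 : G := ⟨Set.univ, isOpen_univ, x0, hx0, mem_univ _⟩
  let V : (ℕ → Bool) → ℕ → G := fun f n => Nat.rec V0 (fun k W => step (f k) W) n
  have hV1 : ∀ f n, V f (n + 1) = step (f n) (V f n) := fun f n => rfl
  have hdec : ∀ f m n, m ≤ n → (V f n).1 ⊆ (V f m).1 := by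
    intro f m n hmn
    induction hmn with
    | refl => exact subset_refl _
    | step _ ih =>
      rw [hV1]
      exact (subset_closure.trans (hstep _ _)).trans ih
  have hp : ∀ f : ℕ → Bool, ∃ p, ∀ n, p ∈ closure (V f n).1 ∩ F := by
    intro f
    refine hX.inter _ (fun n => isClosed_closure.inter hF) (fun n => ?_) (fun m n hmn =>
      inter_subset_inter_left _ (closure_mono (hdec f m n hmn)))
    obtain ⟨x, hxA, hxV⟩ := (V f n).2.2
    exact ⟨x, subset_closure hxV, hxA.1⟩
  choose p hp using hp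
  have hagree : ∀ (f f' : ℕ → Bool) (n : ℕ), (∀ k < n, f k = f' k) → V f n = V f' n := by
    intro f f' n
    induction n with
    | zero => intro _; rfl
    | succ n ih =>
      intro h
      rw [hV1, hV1, h n (Nat.lt_succ_self n), ih fun k hk => h k (hk.trans (Nat.lt_succ_self n))]
  have hpinj : Function.Injective p := by
    intro f f' hff
    by_contra hne
    have hex : ∃ n, f n ≠ f' n := by
      by_contra h
      push Not at h
      exact hne (funext h)
    have hn := Nat.find_spec hex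
    have hmin : ∀ k < Nat.find hex, f k = f' k := fun k hk => by
      by_contra h
      exact Nat.find_min hex hk h
    have hVV := hagree f f' _ hmin
    have h1 := (hp f (Nat.find hex + 1)).1
    have h2 := (hp f' (Nat.find hex + 1)).1
    rw [hV1] at h1 h2
    rw [← hVV] at h2
    rw [hff] at h1
    have hd := hg (V f (Nat.find hex))
    rcases hb : f (Nat.find hex) with _ | _ <;> rcases hb' : f' (Nat.find hex) with _ | _
    · exact hn (hb.trans hb'.symm)
    · rw [hb] at h1
      rw [hb'] at h2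
      exact Set.disjoint_left.1 hd h2 h1
    · rw [hb] at h1
      rw [hb'] at h2
      exact Set.disjoint_left.1 hd h1 h2
    · exact hn (hb.trans hb'.symm)
  have hcard : #(ULift.{u} (ℕ → Bool)) = 𝔠 := by simp
  rw [← hcard]
  exact Cardinal.mk_le_of_injective (f := fun f : ULift.{u} (ℕ → Bool) => (⟨p f.down, (hp _ 0).2⟩ : F))
    (fun a b h => by
      have := hpinj (Subtype.mk.inj h)
      exact ULift.down_injective this)

end Continuum

theorem result :
    (∀ (X : Type u) [TopologicalSpace X] (μ : Cardinal.{u}), μ ^ ℵ₀ = μ → #X ≤ μ →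
      (∀ F : Set X, IsClosed F → F.Infinite → μ ≤ #F) → Staeckel X) ∧
    (∀ (X : Type u) [TopologicalSpace X], T3Space X → CountablyCompact X → #X ≤ 𝔠 →
      (∀ (s : ℕ → X) (x : X), Function.Injective s → ¬ Tendsto s atTop (𝓝 x)) → Staeckel X) := by
  refine ⟨fun X _ μ h1 h2 h3 => staeckel_of_card X μ h1 h2 h3, fun X _ hT hX hc hs => ?_⟩
  haveI := hT
  exact staeckel_of_card X 𝔠 (by simp) hc fun F hF hinf => card_ge hX hs F hF hinf

end Pool.Agent.Results.MP_fafcbd_gt.NoSequences
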