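import Mathlib

/-!
# Stäckel-compactness of countably compact spaces of Type I
-/

open Set Cardinal Topology Filter
open scoped Ordinal

universe u

namespace Pool.Agent.Results.MP_fafcbd_gt.TypeOne

/-- Some linear order on `X` gives every nonempty closed set a least and a greatest element. -/
def Staeckel (X : Type u) [TopologicalSpace X] : Prop :=
  ∃ r : LinearOrder X, ∀ F : Set X, IsClosed F → F.Nonempty →
    (∃ m ∈ F, ∀ x ∈ F, r.le m x) ∧ (∃ M ∈ F, ∀ x ∈ F, r.le x M)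

/-- Every countable open cover has a finite subcover. -/
def CountablyCompact (X : Type u) [TopologicalSpace X] : Prop :=
  ∀ U : ℕ → Set X, (∀ n, IsOpen (U n)) → (⋃ n, U n) = Set.univ →
    ∃ t : Finset ℕ, (⋃ n ∈ t, U n) = Set.univ

/-- `X` is of Type I: the union of open sets `U α`, `α < ω₁`, with Lindelöf closures, where the
closure of `U α` lies in `U β` for `α < β`. -/
def TypeI (X : Type u) [TopologicalSpace X] : Prop :=
  ∃ U : Ordinal.{0} → Set X, (∀ α < ω₁, IsOpen (U α)) ∧ (∀ α < ω₁, IsLindelof (closure (U α))) ∧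
    (∀ α β, α < β → β < ω₁ → closure (U α) ⊆ U β) ∧ ∀ x, ∃ α < ω₁, x ∈ U α

theorem compact_of_lindelof {X : Type u} [TopologicalSpace X] (hX : CountablyCompact X) {K : Set X}
    (hK : IsClosed K) (hL : IsLindelof K) : IsCompact K := by
  classical
  refine isCompact_of_finite_subcover fun {ι} V hV hKV => ?_
  obtain ⟨r, hr, hKr⟩ := hL.elim_countable_subcover V hV hKV
  by_cases hre : r.Nonempty
  · obtain ⟨f, rfl⟩ := hr.exists_eq_range hre
    let O : ℕ → Set X := fun n => Nat.casesOn n Kᶜ (fun k => V (f k))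
    obtain ⟨t, ht⟩ := hX O (by
      rintro (_ | k)
      · exact hK.isOpen_compl
      · exact hV _) (by
      rw [eq_univ_iff_forall]
      intro x
      by_cases hx : x ∈ K
      · obtain ⟨i, hi, hxi⟩ := mem_iUnion₂.1 (hKr hx)
        obtain ⟨k, rfl⟩ := hi
        exact mem_iUnion.2 ⟨k + 1, hxi⟩
      · exact mem_iUnion.2 ⟨0, hx⟩)
    refine ⟨t.image (fun n => f (n - 1)), fun x hx => ?_⟩
    have h1 : x ∈ ⋃ n ∈ t, O n := by rw [ht]; exact mem_univ x
    obtain ⟨n, hn, hxn⟩ := mem_iUnion₂.1 h1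
    cases n with
    | zero => exact absurd hx hxn
    | succ k => exact mem_iUnion₂.2 ⟨f k, Finset.mem_image.2 ⟨k + 1, hn, rfl⟩, hxn⟩
  · rw [not_nonempty_iff_eq_empty] at hre
    refine ⟨∅, ?_⟩
    rw [hre] at hKr
    simpa using hKr

/-- `δ` is a closure point of `g`. -/
def CP (g : Ordinal.{0} → Ordinal.{0}) (δ : Ordinal.{0}) : Prop := δ ≠ 0 ∧ ∀ ξ < δ, g ξ < δ

theorem cp_exists (g : ℕ → Ordinal.{0} → Ordinal.{0}) (hm : ∀ n, Monotone (g n))
    (hg : ∀ n, ∀ ξ < ω₁, g n ξ < ω₁) (α : Ordinal.{0}) (hα : α < ω₁) :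
    ∃ δ, α < δ ∧ δ < ω₁ ∧ ∀ n, CP (g n) δ := by
  have hsucc : ∀ ξ : Ordinal.{0}, ξ < ω₁ → ξ + 1 < ω₁ := fun ξ h => by
    exact (Cardinal.isSuccLimit_omega 1).add_one_lt h
  let G : Ordinal.{0} → Ordinal.{0} := fun ξ => max (ξ + 1) ((⨆ n, g n ξ) + 1)
  have hG : ∀ ξ < ω₁, G ξ < ω₁ := fun ξ hξ =>
    max_lt (hsucc ξ hξ) (hsucc _ (Ordinal.iSup_lt_omega_one fun n => hg n ξ hξ))
  let s : ℕ → Ordinal.{0} := fun k => G^[k] (α + 1)
  have hs : ∀ k, s (k + 1) = G (s k) := fun k => Function.iterate_succ_apply' G k _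
  have hs1 : ∀ k, s k < ω₁ := by
    intro k
    induction k with
    | zero => exact hsucc α hα
    | succ k ih => rw [hs]; exact hG _ ih
  have hle : ∀ k, s k ≤ ⨆ k, s k := fun k => Ordinal.le_iSup s k
  refine ⟨⨆ k, s k, ?_, Ordinal.iSup_lt_omega_one hs1, fun n => ⟨?_, ?_⟩⟩
  · exact lt_of_lt_of_le (lt_add_one α) (hle 0)
  · exact (lt_of_lt_of_le (lt_of_le_of_lt (zero_le (a := α)) (lt_add_one α)) (hle 0)).ne'
  · intro ξ hξ
    obtain ⟨k, hk⟩ := Ordinal.lt_iSup_iff.1 hξ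
    calc g n ξ ≤ g n (s k) := hm n hk.le
      _ ≤ ⨆ n, g n (s k) := Ordinal.le_iSup (fun n => g n (s k)) n
      _ < (⨆ n, g n (s k)) + 1 := lt_add_one _
      _ ≤ s (k + 1) := by rw [hs]; exact le_max_right _ _
      _ ≤ _ := hle _

theorem partition : ∃ S : Set Ordinal.{0}, ∀ g : Ordinal.{0} → Ordinal.{0}, Monotone g →
    (∀ ξ < ω₁, g ξ < ω₁) → (∃ δ < ω₁, δ ∈ S ∧ CP g δ) ∧ (∃ δ < ω₁, δ ∉ S ∧ CP g δ) := by
  classical
  obtain ⟨r, hr⟩ : ∃ r : Ordinal.{0} → (ℕ → Bool), InjOn r (Iio ω₁) := by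
    have h1 : #(Iio (ω₁ : Ordinal.{0})) ≤ Cardinal.lift.{1} #(ℕ → Bool) := by
      rw [Cardinal.mk_Iio_ordinal]
      refine Cardinal.lift_le.2 ?_
      simpa using Cardinal.aleph_one_le_continuum
    have h2 : Cardinal.lift.{0} #(Iio (ω₁ : Ordinal.{0})) ≤ Cardinal.lift.{1} #(ℕ → Bool) := by
      rwa [Cardinal.lift_uzero]
    obtain ⟨f⟩ := Cardinal.lift_mk_le'.1 h2
    refine ⟨fun α => if h : α < ω₁ then f ⟨α, h⟩ else fun _ => true, ?_⟩
    intro α hα β hβ h
    simp only [mem_Iio] at hα hβ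
    simp only [dif_pos hα, dif_pos hβ] at h
    exact congrArg Subtype.val (f.injective h)
  by_contra hcon
  push Not at hcon
  choose g hm hg hor using fun n => hcon {δ | r δ n = true}
  obtain ⟨δ₁, _, h1, h1'⟩ := cp_exists g hm hg 0 (Ordinal.omega_pos 1)
  obtain ⟨δ₂, h12, h2, h2'⟩ := cp_exists g hm hg δ₁ h1
  have : r δ₁ = r δ₂ := by
    funext n
    have hall : ∀ δ < ω₁, CP (g n) δ → r δ n =
        (if (∃ δ < ω₁, δ ∈ {δ | r δ n = true} ∧ CP (g n) δ) then true else false) := by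
      intro δ hδ hc
      split_ifs with h
      · by_contra hne
        exact hor n h δ hδ hne hc
      · by_contra hne
        exact h ⟨δ, hδ, by simpa using hne, hc⟩
    rw [hall δ₁ h1 (h1' n), hall δ₂ h2 (h2' n)]
  exact h12.ne (hr h1 h2 this)

section Lex

variable {X : Type u} [TopologicalSpace X] {ι : Type u} [LinearOrder ι] [WellFoundedLT ι]

theorem lexmin [T2Space X] (f : ι → X → ℝ) (hf : ∀ i, Continuous (f i)) {K : Set X}
    (hK : IsCompact K) (hne : K.Nonempty) :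
    ∃ x ∈ K, ∀ y ∈ K, toLex (fun i => f i x) ≤ toLex (fun i => f i y) := by
  classical
  let m : ι → ℝ := (wellFounded_lt (α := ι)).fix fun i g =>
    sInf (f i '' {x | x ∈ K ∧ ∀ j (hj : j < i), f j x = g j hj})
  have hm : ∀ i, m i = sInf (f i '' {x | x ∈ K ∧ ∀ j, j < i → f j x = m j}) := fun i =>
    (wellFounded_lt (α := ι)).fix_eq _ i
  let C : ι → Set X := fun i => {x | x ∈ K ∧ ∀ j, j ≤ i → f j x = m j}
  have hclosed : ∀ (p : ι → Prop), IsClosed {x | x ∈ K ∧ ∀ j, p j → f j x = m j} := by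
    intro p
    have : {x | x ∈ K ∧ ∀ j, p j → f j x = m j} = K ∩ ⋂ (j) (_ : p j), {x | f j x = m j} := by
      ext x
      simp
    rw [this]
    exact hK.isClosed.inter (isClosed_iInter fun j => isClosed_iInter fun _ =>
      isClosed_eq (hf j) continuous_const)
  have hcomp : ∀ (p : ι → Prop), IsCompact {x | x ∈ K ∧ ∀ j, p j → f j x = m j} := fun p =>
    hK.of_isClosed_subset (hclosed p) fun x hx => hx.1
  have hC : ∀ i, (C i).Nonempty := by
    intro i
    induction i using WellFoundedLT.induction with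
    | ind i ih =>
    have h1 : ({x | x ∈ K ∧ ∀ j, j < i → f j x = m j} : Set X).Nonempty := by
      by_cases hemp : Nonempty {j // j < i}
      · obtain ⟨x, hx⟩ := IsCompact.nonempty_iInter_of_directed_nonempty_isCompact_isClosed
          (fun j : {j // j < i} => C j.1) (by
            intro j k
            rcases le_total j.1 k.1 with h | h
            · exact ⟨k, fun x hx => ⟨hx.1, fun l hl => hx.2 l (hl.trans h)⟩, fun x hx => hx⟩
            · exact ⟨j, fun x hx => hx, fun x hx => ⟨hx.1, fun l hl => hx.2 l (hl.trans h)⟩⟩)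
          (fun j => ih j.1 j.2) (fun j => hcomp _) (fun j => hclosed _)
        rw [mem_iInter] at hx
        obtain ⟨j0⟩ := hemp
        exact ⟨x, (hx j0).1, fun j hj => (hx ⟨j, hj⟩).2 j le_rfl⟩
      · obtain ⟨x, hx⟩ := hne
        exact ⟨x, hx, fun j hj => absurd ⟨⟨j, hj⟩⟩ hemp⟩
    obtain ⟨x, hx, hx'⟩ := (hcomp fun j => j < i).exists_sInf_image_eq h1 (hf i).continuousOn
    refine ⟨x, hx.1, fun j hj => ?_⟩
    rcases hj.lt_or_eq with h | rfl
    · exact hx.2 j h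
    · rw [hm j]; exact hx'.symm
  obtain ⟨x, hxK, hx⟩ : ∃ x ∈ K, ∀ i, f i x = m i := by
    by_cases hemp : Nonempty ι
    · obtain ⟨x, hx⟩ := IsCompact.nonempty_iInter_of_directed_nonempty_isCompact_isClosed C (by
            intro j k
            rcases le_total j k with h | h
            · exact ⟨k, fun x hx => ⟨hx.1, fun l hl => hx.2 l (hl.trans h)⟩, fun x hx => hx⟩
            · exact ⟨j, fun x hx => hx, fun x hx => ⟨hx.1, fun l hl => hx.2 l (hl.trans h)⟩⟩)
          hC (fun j => hcomp _) (fun j => hclosed _)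
      rw [mem_iInter] at hx
      obtain ⟨j0⟩ := hemp
      exact ⟨x, (hx j0).1, fun j => (hx j).2 j le_rfl⟩
    · obtain ⟨x, hx⟩ := hne
      exact ⟨x, hx, fun j => absurd ⟨j⟩ hemp⟩
  refine ⟨x, hxK, fun y hy => ?_⟩
  by_contra hlt
  rw [not_le] at hlt
  obtain ⟨i, hi1, hi2⟩ : ∃ i, (∀ j < i, f j y = f j x) ∧ f i y < f i x := hlt
  have h2 : f i x ≤ f i y := by
    rw [hx i, hm i]
    refine csInf_le ((hcomp fun j => j < i).image (hf i)).bddBelow
      ⟨y, ⟨hy, fun j hj => ?_⟩, rfl⟩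
    rw [hi1 j hj, hx j]
  exact absurd h2 (not_le.2 hi2)

theorem lexmax [T2Space X] (f : ι → X → ℝ) (hf : ∀ i, Continuous (f i)) {K : Set X}
    (hK : IsCompact K) (hne : K.Nonempty) :
    ∃ x ∈ K, ∀ y ∈ K, toLex (fun i => f i y) ≤ toLex (fun i => f i x) := by
  obtain ⟨x, hx, h⟩ := lexmin (fun i x => -f i x) (fun i => (hf i).neg) hK hne
  refine ⟨x, hx, fun y hy => ?_⟩
  by_contra hlt
  rw [not_le] at hlt
  obtain ⟨i, hi1, hi2⟩ : ∃ i, (∀ j < i, f j x = f j y) ∧ f i x < f i y := hlt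
  have h3 : toLex (fun i => -f i y) < toLex (fun i => -f i x) := by
    refine ⟨i, fun j hj => ?_, ?_⟩
    · show -f j y = -f j x
      rw [hi1 j hj]
    · show -f i y < -f i x
      exact neg_lt_neg hi2
  exact absurd (h y hy) (not_le.2 h3)

end Lex

section Main

variable {X : Type u} [TopologicalSpace X] [T2Space X]

theorem main_thm (hX : CountablyCompact X) (hT : TypeI X) : Staeckel X := by
  classical
  obtain ⟨U, hUo, hUl, hUi, hcov⟩ := hT
  have hUc : ∀ α < ω₁, IsCompact (closure (U α)) := fun α hα =>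
    compact_of_lindelof hX isClosed_closure (hUl α hα)
  have hmono : ∀ α β, α ≤ β → β < ω₁ → U α ⊆ U β := fun α β h hβ => by
    rcases h.lt_or_eq with h | rfl
    · exact subset_closure.trans (hUi α β h hβ)
    · exact subset_rfl
  have hsucc : ∀ ξ : Ordinal.{0}, ξ < ω₁ → ξ + 1 < ω₁ := fun ξ h =>
    (Cardinal.isSuccLimit_omega 1).add_one_lt h
  have hω : (ω : Ordinal.{0}) ≠ 0 := Ordinal.omega0_ne_zero
  have hωmul : ∀ ξ : Ordinal.{0}, ξ < ω₁ → ω * ξ < ω₁ := by
    intro ξ hξ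
    rw [← Cardinal.ord_aleph, Cardinal.lt_ord] at hξ ⊢
    rw [Ordinal.card_mul, Ordinal.card_omega0]
    exact Cardinal.mul_lt_of_lt (Cardinal.aleph0_le_aleph 1) Cardinal.aleph0_lt_aleph_one hξ
  haveI : WeaklyLocallyCompactSpace X := ⟨fun x => by
    obtain ⟨α, hα, hx⟩ := hcov x
    exact ⟨closure (U α), hUc α hα, Filter.mem_of_superset ((hUo α hα).mem_nhds hx) subset_closure⟩⟩
  let a : X → Ordinal.{0} := fun x => sInf {α | x ∈ U α}
  have ha1 : ∀ x, x ∈ U (a x) := fun x => by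
    obtain ⟨α, hα, hx⟩ := hcov x
    exact csInf_mem (s := {α | x ∈ U α}) ⟨α, hx⟩
  have ha2 : ∀ x β, x ∈ U β → a x ≤ β := fun x β h => csInf_le' h
  have ha3 : ∀ x, a x < ω₁ := fun x => by
    obtain ⟨α, hα, hx⟩ := hcov x
    exact (ha2 x α hx).trans_lt hα
  have ha4 : ∀ x β, a x ≤ β → β < ω₁ → x ∈ U β := fun x β h hβ => hmono _ _ h hβ (ha1 x)
  let b : X → Ordinal.{0} := fun x => a x / ω
  have hopen : ∀ γ, IsOpen {x | a x < γ} := by
    intro γ
    have : {x | a x < γ} = ⋃ (α) (_ : α < γ ∧ α < ω₁), U α := by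
      ext x
      simp only [mem_setOf_eq, mem_iUnion, exists_prop]
      exact ⟨fun h => ⟨a x, ⟨h, ha3 x⟩, ha1 x⟩, fun ⟨α, ⟨h, _⟩, hx⟩ => (ha2 x α hx).trans_lt h⟩
    rw [this]
    exact isOpen_iUnion fun α => isOpen_iUnion fun h => hUo α h.2
  have hblt : ∀ x β, b x < β ↔ a x < ω * β := fun x β => Ordinal.div_lt hω
  have hbopen : ∀ β, IsOpen {x | b x < β} := by
    intro β
    simp only [hblt]
    exact hopen _
  have hh : ∀ α : Ordinal.{0}, ∃ f : C(X, ℝ), (α < ω₁ → (∀ x ∈ closure (U α), f x = 0) ∧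
      (∀ x, x ∉ U (α + 1) → f x = 1)) ∧ ∀ x, f x ∈ Icc (0 : ℝ) 1 := by
    intro α
    by_cases hα : α < ω₁
    · obtain ⟨f, h0, h1, h2⟩ := exists_continuous_zero_one_of_isCompact (hUc α hα)
        (hUo (α + 1) (hsucc α hα)).isClosed_compl
        (disjoint_compl_right_iff_subset.2 (hUi α (α + 1) (lt_add_one α) (hsucc α hα)))
      exact ⟨f, fun _ => ⟨fun x hx => h0 hx, fun x hx => h1 hx⟩, h2⟩
    · exact ⟨0, fun h => absurd h hα, fun x => by simp⟩
  choose h h01 hIcc using hh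
  let W := (#C(X, ℝ)).ord.ToType
  obtain ⟨g⟩ : Nonempty (W ≃ C(X, ℝ)) := Cardinal.eq.1 (by rw [Cardinal.mk_toType, Cardinal.card_ord])
  let ι := ℕ ⊕ₗ W
  have hwf : WellFoundedLT (ℕ ⊕ₗ W) := ⟨Sum.lex_wf wellFounded_lt wellFounded_lt⟩
  have hwf' : WellFoundedLT ι := hwf
  let φ : Ordinal.{0} → ι → X → ℝ := fun β i =>
    Sum.elim (fun n : ℕ => (h (ω * β + n) : X → ℝ)) (fun w => (g w : X → ℝ)) (ofLex i)
  have hφ : ∀ β i, Continuous (φ β i) := by
    intro β i
    rcases hi : ofLex i with n | w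
    · have : φ β i = h (ω * β + n) := by simp [φ, hi]
      rw [this]
      exact (h _).continuous
    · have : φ β i = g w := by simp [φ, hi]
      rw [this]
      exact (g w).continuous
  let code : Ordinal.{0} → X → Lex (ι → ℝ) := fun β x => toLex fun i => φ β i x
  let t : X → Ordinal.{0} ×ₗ Lex (ι → ℝ) := fun x => toLex (b x, code (b x) x)
  have htle : ∀ x y, b x < b y → t x ≤ t y := fun x y hxy =>
    Prod.Lex.toLex_le_toLex.2 (Or.inl hxy)
  have htle' : ∀ x y, b x = b y → code (b x) x ≤ code (b x) y → t x ≤ t y := fun x y hxy hc =>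
    Prod.Lex.toLex_le_toLex.2 (Or.inr ⟨hxy, by
      show code (b x) x ≤ code (b y) y
      rw [← hxy]; exact hc⟩)
  have htinj : Function.Injective t := by
    intro x y hxy
    have h1 : (b x, code (b x) x) = (b y, code (b y) y) := toLex.injective hxy
    have h2 : b x = b y := congrArg Prod.fst h1
    have h3 : code (b x) x = code (b y) y := congrArg Prod.snd h1
    rw [← h2] at h3
    by_contra hne
    obtain ⟨f, h0, h4, _⟩ := exists_continuous_zero_one_of_isCompact (isCompact_singleton (x := x))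
      (isClosed_singleton (x := y)) (by simpa using hne)
    have h5 : φ (b x) (toLex (Sum.inr (g.symm f))) x = φ (b x) (toLex (Sum.inr (g.symm f))) y :=
      congrFun (toLex.injective h3) _
    have h6 : f x = f y := by simpa [φ] using h5
    have h7 : f x = 0 := h0 rfl
    have h8 : f y = 1 := h4 rfl
    rw [h7, h8] at h6
    exact zero_ne_one h6
  have hcomp : ∀ (F : Set X) (β : Ordinal.{0}), IsClosed F → β < ω₁ → F ⊆ closure (U β) →
      IsCompact F := fun F β hF hβ hsub => (hUc β hβ).of_isClosed_subset hF hsub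
  have tmax : ∀ (F : Set X) (β : Ordinal.{0}), IsClosed F → F.Nonempty → β < ω₁ → F ⊆ U β →
      ∃ M ∈ F, ∀ x ∈ F, t x ≤ t M := by
    intro F β hF hne hβ hsub
    have hFc := hcomp F β hF hβ (hsub.trans subset_closure)
    obtain ⟨x0, hx0, hx0'⟩ : ∃ x0 ∈ F, ∀ x ∈ F, b x ≤ b x0 := by
      by_contra hcon
      push Not at hcon
      haveI : Nonempty F := hne.to_subtype
      obtain ⟨y, hy⟩ := hFc.elim_directed_cover (fun y : F => {x | b x < b y}) (fun y => hbopen _)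
        (fun x hx => by
          obtain ⟨y, hy, hxy⟩ := hcon x hx
          exact mem_iUnion.2 ⟨⟨y, hy⟩, hxy⟩)
        (fun y z => by
          rcases le_total (b y) (b z) with hyz | hyz
          · exact ⟨z, fun x hx => lt_of_lt_of_le hx hyz, fun x hx => hx⟩
          · exact ⟨y, fun x hx => hx, fun x hx => lt_of_lt_of_le hx hyz⟩)
      have h9 : b y.1 < b y.1 := hy y.2
      exact lt_irrefl _ h9
    have hF' : IsClosed (F ∩ {x | b x < b x0}ᶜ) := hF.inter (hbopen _).isClosed_compl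
    obtain ⟨M, hM, hM'⟩ := lexmax (φ (b x0)) (hφ _) (hFc.of_isClosed_subset hF' inter_subset_left)
      ⟨x0, hx0, lt_irrefl (b x0)⟩
    have hbM : b M = b x0 := le_antisymm (hx0' M hM.1) (not_lt.1 hM.2)
    refine ⟨M, hM.1, fun x hx => ?_⟩
    rcases (hx0' x hx).lt_or_eq with h1 | h1
    · exact htle _ _ (by rw [hbM]; exact h1)
    · refine htle' _ _ (h1.trans hbM.symm) ?_
      rw [h1]
      exact hM' x ⟨hx, fun h2 => h2.ne h1⟩
  have tmin : ∀ (F : Set X) (R : Ordinal.{0} → Prop), IsClosed F → (∃ x ∈ F, R (b x)) →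
      ∃ m ∈ F, R (b m) ∧ ∀ x ∈ F, R (b x) → t m ≤ t x := by
    intro F R hF ⟨z, hz, hzR⟩
    obtain ⟨_, ⟨x0, ⟨hx0, hx0R⟩, rfl⟩, hmin⟩ := WellFounded.has_min
      (wellFounded_lt : WellFounded ((· < ·) : Ordinal.{0} → Ordinal.{0} → Prop))
      (b '' {x | x ∈ F ∧ R (b x)}) ⟨b z, z, ⟨hz, hzR⟩, rfl⟩
    have hmin' : ∀ x ∈ F, R (b x) → b x0 ≤ b x := fun x hx hxR =>
      not_lt.1 (hmin _ ⟨x, ⟨hx, hxR⟩, rfl⟩)
    obtain ⟨n, hn⟩ := Ordinal.lt_omega0.1 (Ordinal.mod_lt (a x0) hω)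
    have han : a x0 = ω * b x0 + n := by
      rw [← hn]; exact (Ordinal.div_add_mod (a x0) ω).symm
    have hlt : ∀ k : ℕ, ω * b x0 + k < ω * (b x0 + 1) := by
      intro k
      rw [mul_add_one]
      exact (add_lt_add_iff_left _).2 (Ordinal.natCast_lt_omega0 k)
    have hb1 : ω * b x0 ≤ a x0 := by rw [han]; exact le_self_add
    have hlt1 : ∀ k : ℕ, ω * b x0 + k < ω₁ := by
      intro k
      induction k with
      | zero => simpa using lt_of_le_of_lt hb1 (ha3 x0)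
      | succ k ih =>
        have := hsucc _ ih
        rw [add_assoc] at this
        exact_mod_cast this
    have hx0U : x0 ∈ U (ω * b x0 + n) := by rw [← han]; exact ha1 x0
    have hcast : ∀ k : ℕ, ω * b x0 + (k : Ordinal.{0}) + 1 = ω * b x0 + ((k + 1 : ℕ) : Ordinal.{0}) := by
      intro k
      rw [add_assoc]
      norm_cast
    have hF' : IsClosed (F ∩ closure (U (ω * b x0 + ((n + 1 : ℕ) : Ordinal.{0}))) ∩
        {x | b x < b x0}ᶜ) := (hF.inter isClosed_closure).inter (hbopen _).isClosed_compl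
    obtain ⟨m, hm, hm'⟩ := lexmin (φ (b x0)) (hφ _) (hcomp _ _ hF' (hlt1 (n + 1))
      (inter_subset_left.trans inter_subset_right))
      ⟨x0, ⟨hx0, subset_closure (hmono _ _ (by
        rw [← hcast]; exact (lt_add_one _).le) (hlt1 (n + 1)) hx0U)⟩, lt_irrefl (b x0)⟩
    have hbm : b m = b x0 := by
      refine le_antisymm ?_ (not_lt.1 hm.2)
      have h1 : a m ≤ ω * b x0 + ((n + 1 + 1 : ℕ) : Ordinal.{0}) := by
        refine ha2 _ _ (hUi _ _ ?_ (hlt1 (n + 1 + 1)) hm.1.2)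
        rw [← hcast (n + 1)]
        exact lt_add_one _
      have h2 : b m < b x0 + 1 := (hblt m (b x0 + 1)).2 (h1.trans_lt (hlt _))
      exact Order.lt_add_one_iff.1 h2
    refine ⟨m, hm.1.1, by rw [hbm]; exact hx0R, fun y hy hyR => ?_⟩
    rcases (hmin' y hy hyR).lt_or_eq with h1 | h1
    · exact htle _ _ (by rw [hbm]; exact h1)
    refine htle' _ _ (hbm.trans h1) ?_
    rw [hbm]
    by_cases hycl : y ∈ closure (U (ω * b x0 + ((n + 1 : ℕ) : Ordinal.{0})))
    · exact hm' y ⟨⟨hy, hycl⟩, fun h2 => h2.ne h1.symm⟩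
    refine (hm' x0 ⟨⟨hx0, subset_closure (hmono _ _ (by
        rw [← hcast]; exact (lt_add_one _).le) (hlt1 (n + 1)) hx0U)⟩, lt_irrefl (b x0)⟩).trans ?_
    have hy1 : ∀ k : ℕ, k ≤ n → φ (b x0) (toLex (Sum.inl k)) y = 1 := by
      intro k hk
      show h (ω * b x0 + k) y = 1
      refine (h01 _ (hlt1 k)).2 y fun hyU => hycl (subset_closure (hmono _ _ ?_ (hlt1 (n + 1)) hyU))
      rw [hcast]
      exact (add_le_add_iff_left _).2 (by exact_mod_cast Nat.succ_le_succ hk)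
    have hx1 : φ (b x0) (toLex (Sum.inl n)) x0 = 0 :=
      (h01 _ (hlt1 n)).1 x0 (subset_closure hx0U)
    by_contra hlt2
    rw [not_le] at hlt2
    obtain ⟨i, hi1, hi2⟩ : ∃ i, (∀ j < i, φ (b x0) j y = φ (b x0) j x0) ∧
      φ (b x0) i y < φ (b x0) i x0 := hlt2
    have hcase : (∃ k ≤ n, i = toLex (Sum.inl k)) ∨ (toLex (Sum.inl n) : ι) < i := by
      rcases hi : ofLex i with k | w
      · have hi' : i = toLex (Sum.inl k) := by rw [← hi]; rfl
        rcases le_or_gt k n with hk | hk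
        · exact Or.inl ⟨k, hk, hi'⟩
        · right
          rw [hi']
          exact Sum.Lex.inl_lt_inl_iff.2 hk
      · have hi' : i = toLex (Sum.inr w) := by rw [← hi]; rfl
        right
        rw [hi']
        exact Sum.Lex.inl_lt_inr _ _
    rcases hcase with ⟨k, hk, rfl⟩ | hlt3
    · rw [hy1 k hk] at hi2
      exact absurd (hIcc (ω * b x0 + k) x0).2 (not_le.2 hi2)
    · have := hi1 _ hlt3
      rw [hy1 n le_rfl, hx1] at this
      exact one_ne_zero this
  have meets : ∀ F : Set X, IsClosed F → (∀ β < ω₁, ¬ F ⊆ U β) →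
      ∃ g : Ordinal.{0} → Ordinal.{0}, Monotone g ∧ (∀ ξ < ω₁, g ξ < ω₁) ∧
        ∀ δ < ω₁, CP g δ → ∃ y ∈ F, b y = δ := by
    intro F hF hunb
    let A : Ordinal.{0} → Set Ordinal.{0} := fun ξ => {η | ω * ξ < η ∧ ∃ x ∈ F, ξ < a x ∧ a x < η}
    have hA : ∀ ξ < ω₁, ∃ η ∈ A ξ, η < ω₁ := by
      intro ξ hξ
      obtain ⟨x, hxF, hx⟩ := Set.not_subset.1 (hunb ξ hξ)
      have h1 : ξ < a x := by
        by_contra h2
        exact hx (ha4 x ξ (not_lt.1 h2) hξ)
      exact ⟨max (ω * ξ) (a x) + 1, ⟨lt_of_le_of_lt (le_max_left _ _) (lt_add_one _), x, hxF, h1,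
        lt_of_le_of_lt (le_max_right _ _) (lt_add_one _)⟩, hsucc _ (max_lt (hωmul ξ hξ) (ha3 x))⟩
    let g : Ordinal.{0} → Ordinal.{0} := fun ξ => if ξ < ω₁ then sInf (A ξ) else ω₁
    have hg1 : ∀ ξ < ω₁, g ξ = sInf (A ξ) := fun ξ hξ => if_pos hξ
    have hg2 : ∀ ξ < ω₁, g ξ < ω₁ := fun ξ hξ => by
      obtain ⟨η, hη, hη'⟩ := hA ξ hξ
      rw [hg1 ξ hξ]
      exact (csInf_le' hη).trans_lt hη'
    refine ⟨g, ?_, hg2, ?_⟩
    · intro ξ ξ' hle
      by_cases h1 : ξ' < ω₁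
      · rw [hg1 ξ (hle.trans_lt h1), hg1 ξ' h1]
        obtain ⟨η, hη, _⟩ := hA ξ' h1
        have hmem : sInf (A ξ') ∈ A ξ' := csInf_mem ⟨η, hη⟩
        refine csInf_le' ?_
        obtain ⟨h2, x, hx, h3, h4⟩ := hmem
        exact ⟨lt_of_le_of_lt (mul_le_mul_right hle ω) h2, x, hx, hle.trans_lt h3, h4⟩
      · have : g ξ' = ω₁ := if_neg h1
        rw [this]
        by_cases h2 : ξ < ω₁
        · exact (hg2 ξ h2).le
        · exact (if_neg h2 : g ξ = ω₁).le
    · rintro δ hδ ⟨hδ0, hcp⟩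
      have hA' : ∀ ξ < δ, ω * ξ < δ ∧ ∃ x ∈ F, ξ < a x ∧ a x < δ := by
        intro ξ hξ
        obtain ⟨η, hη, _⟩ := hA ξ (hξ.trans hδ)
        have hmem : sInf (A ξ) ∈ A ξ := csInf_mem ⟨η, hη⟩
        have hlt := hcp ξ hξ
        rw [hg1 ξ (hξ.trans hδ)] at hlt
        obtain ⟨h2, x, hx, h3, h4⟩ := hmem
        exact ⟨h2.trans hlt, x, hx, h3, h4.trans hlt⟩
      have hlim : Order.IsSuccLimit δ := by
        rw [Order.isSuccLimit_iff]
        refine ⟨by simpa [isMin_iff_eq_bot] using hδ0, ?_⟩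
        rw [Order.isSuccPrelimit_iff_succ_lt]
        intro ξ hξ
        obtain ⟨_, x, _, h3, h4⟩ := hA' ξ hξ
        exact lt_of_le_of_lt (Order.succ_le_of_lt h3) h4
      have hmul : ω * δ ≤ δ := (Ordinal.mul_le_iff_of_isSuccLimit hlim).2 fun ξ hξ => (hA' ξ hξ).1.le
      obtain ⟨y, ⟨hyF, hycl⟩, hya⟩ : ∃ y ∈ F ∩ closure (U δ), ¬ a y < δ := by
        by_contra hcon
        push Not at hcon
        haveI : Nonempty {α // α < δ} := ⟨⟨0, pos_iff_ne_zero.2 hδ0⟩⟩
        obtain ⟨α, hα⟩ := (hcomp (F ∩ closure (U δ)) δ (hF.inter isClosed_closure) hδ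
          inter_subset_right).elim_directed_cover (fun α : {α // α < δ} => U α.1)
          (fun α => hUo α.1 (α.2.trans hδ))
          (fun x hx => mem_iUnion.2 ⟨⟨a x, hcon x hx⟩, ha1 x⟩)
          (fun α β => by
            rcases le_total α.1 β.1 with hle | hle
            · exact ⟨β, hmono _ _ hle (β.2.trans hδ), subset_rfl⟩
            · exact ⟨α, subset_rfl, hmono _ _ hle (α.2.trans hδ)⟩)
        obtain ⟨_, x, hx, h3, h4⟩ := hA' α.1 α.2
        have h5 : x ∈ U α.1 := hα ⟨hx, subset_closure (ha4 x δ h4.le hδ)⟩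
        exact absurd (ha2 x _ h5) (not_le.2 h3)
      have hya2 : a y ≤ δ + 1 := ha2 _ _ (hUi δ (δ + 1) (lt_add_one δ) (hsucc δ hδ) hycl)
      refine ⟨y, hyF, le_antisymm ?_ ?_⟩
      · refine Order.lt_add_one_iff.1 ((hblt y (δ + 1)).2 ?_)
        rw [mul_add_one]
        refine hya2.trans_lt (lt_of_le_of_lt (add_le_add_left (Ordinal.le_mul_right δ (Ordinal.omega0_pos)) 1)
          ((add_lt_add_iff_left _).2 Ordinal.one_lt_omega0))
      · exact (Ordinal.le_div hω).2 (hmul.trans (not_lt.1 hya))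
  obtain ⟨S, hS⟩ := partition
  let e : X → (Ordinal.{0} ×ₗ Lex (ι → ℝ)) ⊕ₗ (Ordinal.{0} ×ₗ Lex (ι → ℝ))ᵒᵈ := fun x =>
    if b x ∈ S then toLex (Sum.inl (t x)) else toLex (Sum.inr (OrderDual.toDual (t x)))
  have he1 : ∀ x, b x ∈ S → e x = toLex (Sum.inl (t x)) := fun x hx => if_pos hx
  have he2 : ∀ x, b x ∉ S → e x = toLex (Sum.inr (OrderDual.toDual (t x))) := fun x hx => if_neg hx
  have hinj : Function.Injective e := by
    intro x y hxy
    by_cases hx : b x ∈ S <;> by_cases hy : b y ∈ S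
    · rw [he1 x hx, he1 y hy] at hxy
      exact htinj (by simpa using hxy)
    · rw [he1 x hx, he2 y hy] at hxy
      simp at hxy
    · rw [he2 x hx, he1 y hy] at hxy
      simp at hxy
    · rw [he2 x hx, he2 y hy] at hxy
      exact htinj (by simpa using hxy)
  refine ⟨LinearOrder.lift' e hinj, fun F hF hne => ?_⟩
  constructor
  · by_cases hP : ∃ x ∈ F, b x ∈ S
    · obtain ⟨m, hm, hmS, hm'⟩ := tmin F (fun β => β ∈ S) hF hP
      refine ⟨m, hm, fun x hx => ?_⟩
      show e m ≤ e x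
      by_cases hxS : b x ∈ S
      · rw [he1 m hmS, he1 x hxS]
        exact Sum.Lex.inl_le_inl_iff.2 (hm' x hx hxS)
      · rw [he1 m hmS, he2 x hxS]
        exact Sum.Lex.inl_le_inr _ _
    · push Not at hP
      have hbdd : ∃ β < ω₁, F ⊆ U β := by
        by_contra hcon
        push Not at hcon
        obtain ⟨g, h1, h2, h3⟩ := meets F hF hcon
        obtain ⟨δ, hδ, hδS, hc⟩ := (hS g h1 h2).1
        obtain ⟨y, hy, hyb⟩ := h3 δ hδ hc
        exact hP y hy (by rw [hyb]; exact hδS)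
      obtain ⟨β, hβ, hFβ⟩ := hbdd
      obtain ⟨M, hM, hM'⟩ := tmax F β hF hne hβ hFβ
      refine ⟨M, hM, fun x hx => ?_⟩
      show e M ≤ e x
      rw [he2 M (hP M hM), he2 x (hP x hx)]
      exact Sum.Lex.inr_le_inr_iff.2 (OrderDual.toDual_le_toDual.2 (hM' x hx))
  · by_cases hP : ∃ x ∈ F, b x ∉ S
    · obtain ⟨m, hm, hmS, hm'⟩ := tmin F (fun β => β ∉ S) hF hP
      refine ⟨m, hm, fun x hx => ?_⟩
      show e x ≤ e m
      by_cases hxS : b x ∈ S
      · rw [he1 x hxS, he2 m hmS]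
        exact Sum.Lex.inl_le_inr _ _
      · rw [he2 m hmS, he2 x hxS]
        exact Sum.Lex.inr_le_inr_iff.2 (OrderDual.toDual_le_toDual.2 (hm' x hx hxS))
    · push Not at hP
      have hbdd : ∃ β < ω₁, F ⊆ U β := by
        by_contra hcon
        push Not at hcon
        obtain ⟨g, h1, h2, h3⟩ := meets F hF hcon
        obtain ⟨δ, hδ, hδS, hc⟩ := (hS g h1 h2).2
        obtain ⟨y, hy, hyb⟩ := h3 δ hδ hc
        exact hδS (by rw [← hyb]; exact hP y hy)
      obtain ⟨β, hβ, hFβ⟩ := hbdd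
      obtain ⟨M, hM, hM'⟩ := tmax F β hF hne hβ hFβ
      refine ⟨M, hM, fun x hx => ?_⟩
      show e x ≤ e M
      rw [he1 M (hP M hM), he1 x (hP x hx)]
      exact Sum.Lex.inl_le_inl_iff.2 (hM' x hx)

end Main

theorem result (X : Type u) [TopologicalSpace X] (hX : T2Space X) (hc : CountablyCompact X)
    (h : TypeI X) : Staeckel X :=
  main_thm hc h

end Pool.Agent.Results.MP_fafcbd_gt.TypeOne
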